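import Pool.Agent.Helper29.Frege.Geo

/-!
Total defect estimate.
-/

namespace Helper29.Yng

open Finset

lemma two_log_le {y : ℝ} (hy : 1 ≤ y) : 2 * Real.log y ≤ y - y⁻¹ := by
  have h0 : 0 < y := by linarith
  have h1 : 0 ≤ Real.log y := Real.log_nonneg hy
  have h2 := Real.self_le_sinh_iff.2 h1
  rw [Real.sinh_log h0] at h2
  linarith

/-- normalised tilted sum -/
noncomputable def Phi (σ : ℝ) (n : ℕ) : ℝ := F (σ ^ 2) n / (n.factorial : ℝ)

lemma Phi_pos {σ : ℝ} (hσ : 1 ≤ σ) (n : ℕ) : 0 < Phi σ n := by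
  unfold Phi
  have : 0 < F (σ ^ 2) n := F_pos (by nlinarith) n
  positivity

lemma Phi_zero (σ : ℝ) : Phi σ 0 = 1 := by
  simp [Phi, F_zero]

/-- step: `log Φ_{n+1} - log Φ_n ≤ (σ - 1/σ) ρ_n / √(n+1)` -/
lemma log_step {σ : ℝ} (hσ : 1 ≤ σ) (n : ℕ) :
    Real.log (Phi σ (n + 1)) ≤ Real.log (Phi σ n) + (σ - σ⁻¹) * rho σ n / √((n : ℝ) + 1) := by
  have hF : 0 < F (σ ^ 2) n := F_pos (by nlinarith) n
  have hF1 : 0 < F (σ ^ 2) (n + 1) := F_pos (by nlinarith) (n + 1)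
  have hX : 0 ≤ X (σ ^ 2) n := X_nonneg (by positivity) n
  have hσ0 : 0 < σ := by linarith
  have hn : (0 : ℝ) < (n : ℝ) + 1 := by positivity
  set a := F (σ ^ 2) n with ha
  set b := F (σ ^ 2) (n + 1) with hb
  set x := X (σ ^ 2) n with hx
  have hrec : b = (n + 1) * a + (σ ^ 2 - 1) * x := F_succ (σ ^ 2) n
  set y := √(b / ((n + 1) * a)) with hy
  have hpos : 0 < (n + 1) * a := mul_pos hn hF
  have hbge : (n + 1) * a ≤ b := by
    rw [hrec]
    have : 0 ≤ (σ ^ 2 - 1) * x := mul_nonneg (by nlinarith) hX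
    linarith
  have hy1 : 1 ≤ y := by
    rw [hy, Real.one_le_sqrt, one_le_div hpos]
    exact hbge
  have hy0 : 0 < y := by linarith
  have hysq : y ^ 2 = b / ((n + 1) * a) := Real.sq_sqrt (by positivity)
  have h1 : Real.log (Phi σ (n + 1)) - Real.log (Phi σ n) = 2 * Real.log y := by
    rw [← Real.log_div (Phi_pos hσ _).ne' (Phi_pos hσ _).ne']
    have : Phi σ (n + 1) / Phi σ n = y ^ 2 := by
      rw [hysq]
      unfold Phi
      rw [← ha, ← hb, Nat.factorial_succ]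
      have : (n.factorial : ℝ) ≠ 0 := by positivity
      push_cast
      field_simp
    rw [this, Real.log_pow]
    norm_num
  have h2 := two_log_le hy1
  have h3 : y - y⁻¹ = (σ - σ⁻¹) * rho σ n / √((n : ℝ) + 1) := by
    -- y - 1/y = (y^2-1)/y
    have e1 : y - y⁻¹ = (y ^ 2 - 1) / y := by field_simp
    have e2 : y ^ 2 - 1 = (σ ^ 2 - 1) * x / ((n + 1) * a) := by
      rw [hysq, hrec]; field_simp; ring
    have e3 : y = √b / (√(n + 1) * √a) := by
      rw [hy, Real.sqrt_div hF1.le, Real.sqrt_mul hn.le]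
    have hsb : 0 < √b := Real.sqrt_pos.2 hF1
    have hsa : 0 < √a := Real.sqrt_pos.2 hF
    have hsn : 0 < √((n : ℝ) + 1) := Real.sqrt_pos.2 hn
    unfold rho
    rw [← ha, ← hb, ← hx, e1, e2, e3, Real.sqrt_mul hF.le]
    have s1 : (√a) * √a = a := Real.mul_self_sqrt hF.le
    have s2 : √((n : ℝ) + 1) * √((n : ℝ) + 1) = n + 1 := Real.mul_self_sqrt hn.le
    have lhs : (σ ^ 2 - 1) * x / ((n + 1) * a) / (√b / (√(n + 1) * √a)) =
        (σ ^ 2 - 1) * x / (√b * √(n + 1) * √a) := by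
      have s3 : ((n : ℝ) + 1) * a = (√((n : ℝ) + 1) * √((n : ℝ) + 1)) * (√a * √a) := by rw [s1, s2]
      rw [s3]
      field_simp
    rw [lhs]
    field_simp
  linarith

lemma log_Phi_le {σ : ℝ} (hσ : 1 ≤ σ) (N : ℕ) :
    Real.log (Phi σ N) ≤ (σ - σ⁻¹) * ∑ n ∈ range N, rho σ n / √((n : ℝ) + 1) := by
  induction N with
  | zero => simp [Phi_zero]
  | succ N ih =>
    rw [Finset.sum_range_succ, mul_add]
    have := log_step hσ N
    rw [mul_div_assoc] at this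
    linarith

lemma sum_inv_sqrt_le (N : ℕ) : ∑ n ∈ range N, 1 / √((n : ℝ) + 1) ≤ 2 * √(N : ℝ) := by
  induction N with
  | zero => simp
  | succ N ih =>
    rw [Finset.sum_range_succ]
    push_cast
    have h1 : 0 < √((N : ℝ) + 1) := Real.sqrt_pos.2 (by positivity)
    have h2 : √((N : ℝ) + 1) ^ 2 = N + 1 := Real.sq_sqrt (by positivity)
    have h3 : √(N : ℝ) ^ 2 = N := Real.sq_sqrt (by positivity)
    have h4 : 0 ≤ √(N : ℝ) := Real.sqrt_nonneg _
    have h5 : 1 / √((N : ℝ) + 1) ≤ 2 * √((N : ℝ) + 1) - 2 * √(N : ℝ) := by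
      rw [div_le_iff₀ h1]
      nlinarith [sq_nonneg (√((N : ℝ) + 1) - √(N : ℝ))]
    linarith

lemma defect_le {σ : ℝ} (hσ : 1 < σ) (N : ℕ) :
    ∑ n ∈ range N, (1 - rho σ n) / √((n : ℝ) + 1) ≤
      (2 * (σ - σ⁻¹) * √(N : ℝ) - Real.log (Phi σ N)) / (σ - σ⁻¹) := by
  have hk : 0 < σ - σ⁻¹ := by
    have : σ⁻¹ < 1 := inv_lt_one_of_one_lt₀ hσ
    linarith
  rw [le_div_iff₀ hk]
  have h1 := log_Phi_le hσ.le N
  have h2 := sum_inv_sqrt_le N
  have h3 : ∑ n ∈ range N, (1 - rho σ n) / √((n : ℝ) + 1) =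
      ∑ n ∈ range N, 1 / √((n : ℝ) + 1) - ∑ n ∈ range N, rho σ n / √((n : ℝ) + 1) := by
    rw [← Finset.sum_sub_distrib]
    apply Finset.sum_congr rfl
    intro n _
    ring
  rw [h3]
  nlinarith

lemma kappa_eq {σ : ℝ} (hσ : σ ≠ 0) : σ ^ 2 - 2 + (σ ^ 2)⁻¹ = (σ - σ⁻¹) ^ 2 := by
  field_simp
  ring

lemma factorial_le (r : ℕ) (hr : 1 ≤ r) :
    (r.factorial : ℝ) ≤ Real.exp 1 * √(r : ℝ) * (r / Real.exp 1) ^ r := by
  obtain ⟨m, rfl⟩ : ∃ m, r = m + 1 := ⟨r - 1, by omega⟩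
  have h1 : Stirling.stirlingSeq (m + 1) ≤ Stirling.stirlingSeq 1 := by
    have := Stirling.stirlingSeq'_antitone (Nat.zero_le m)
    simpa using this
  rw [Stirling.stirlingSeq_one] at h1
  unfold Stirling.stirlingSeq at h1
  have h2 : 0 < √(2 * ((m + 1 : ℕ) : ℝ)) * (((m + 1 : ℕ) : ℝ) / Real.exp 1) ^ (m + 1) := by positivity
  rw [div_le_iff₀ h2] at h1
  refine h1.trans (le_of_eq ?_)
  rw [Real.sqrt_mul (by norm_num)]
  have h3 : √(2:ℝ) ≠ 0 := by positivity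
  field_simp

/-- lower bound for `log Φ`. -/
lemma log_Phi_ge {σ : ℝ} (hσ : 1 < σ) (hk : (σ - σ⁻¹) ^ 2 ≤ 1 / 2) (N : ℕ) :
    2 * (σ - σ⁻¹) * √(N : ℝ) - 5 - 2 * Real.log (1 + (σ - σ⁻¹) * √(N : ℝ)) ≤ Real.log (Phi σ N) := by
  have hσ0 : σ ≠ 0 := by linarith
  set k := σ - σ⁻¹ with hkdef
  have hk0 : 0 < k := by
    have : σ⁻¹ < 1 := inv_lt_one_of_one_lt₀ hσ
    rw [hkdef]; linarith
  have hx0 : 0 ≤ k * √(N : ℝ) := by positivity
  set r := ⌊k * √(N : ℝ)⌋₊ with hr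
  have hr1 : (r : ℝ) ≤ k * √(N : ℝ) := Nat.floor_le hx0
  have hr2 : k * √(N : ℝ) < r + 1 := Nat.lt_floor_add_one _
  have hPhi : k ^ (2 * r) / ((r + 1).factorial : ℝ) * (N.choose r : ℝ) ≤ Phi σ N := by
    have := Phi_ge (s := σ ^ 2) (by nlinarith) (by rw [kappa_eq hσ0]; positivity) N r
    rw [kappa_eq hσ0, ← hkdef, ← pow_mul] at this
    exact this
  have hlog1 : 0 ≤ Real.log (1 + k * √(N : ℝ)) := Real.log_nonneg (by linarith)
  rcases Nat.eq_zero_or_pos r with h0 | hpos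
  · rw [h0] at hPhi
    simp at hPhi
    have := Real.log_nonneg hPhi
    rw [h0] at hr2
    norm_num at hr2
    nlinarith
  · have hsqN : √(N : ℝ) ^ 2 = N := Real.sq_sqrt (by positivity)
    have hr3 : (r : ℝ) ^ 2 ≤ k ^ 2 * N := by
      rw [← hsqN]
      have : (r : ℝ) ^ 2 ≤ (k * √(N : ℝ)) ^ 2 := by gcongr
      linarith [mul_pow k (√(N : ℝ)) 2]
    have hr4 : (r : ℝ) ^ 2 ≤ N / 2 := by
      have : k ^ 2 * (N : ℝ) ≤ 1 / 2 * N := by gcongr
      linarith
    have hrr : (1 : ℝ) ≤ r := by exact_mod_cast hpos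
    have hN0 : (0 : ℝ) < N := by nlinarith
    have hrN : r ≤ N := by
      have : (r : ℝ) ≤ N := by nlinarith
      exact_mod_cast this
    -- choose lower bound
    have hch : ((N : ℝ) - r + 1) ^ r ≤ r.factorial * (N.choose r : ℝ) := by
      have h1 := Nat.pow_sub_le_descFactorial N r
      rw [Nat.descFactorial_eq_factorial_mul_choose] at h1
      have h2 : (((N + 1 - r) ^ r : ℕ) : ℝ) ≤ ((r.factorial * N.choose r : ℕ) : ℝ) := by exact_mod_cast h1
      push_cast [Nat.cast_sub (show r ≤ N + 1 by omega)] at h2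
      calc _ = ((N : ℝ) + 1 - r) ^ r := by ring_nf
        _ ≤ _ := h2
    have hbern : (1 : ℝ) / 2 ≤ (1 - r / N) ^ r := by
      have h1 := one_add_mul_le_pow (show (-2 : ℝ) ≤ -(r / N : ℝ) by
        have : (r : ℝ) / N ≤ 1 := by rw [div_le_one hN0]; exact_mod_cast hrN
        linarith) r
      have h2 : 1 + (r : ℝ) * -(r / N : ℝ) = 1 - r ^ 2 / N := by ring
      rw [h2] at h1
      have h3 : (r : ℝ) ^ 2 / N ≤ 1 / 2 := by rw [div_le_iff₀ hN0]; linarith
      calc (1 : ℝ) / 2 ≤ 1 - r ^ 2 / N := by linarith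
        _ ≤ _ := h1
        _ = _ := by ring_nf
    have hmain : (r : ℝ) ^ (2 * r) / 2 ≤ k ^ (2 * r) * (r.factorial * (N.choose r : ℝ)) := by
      calc (r : ℝ) ^ (2 * r) / 2 = ((r : ℝ) ^ 2) ^ r * (1 / 2) := by rw [pow_mul]; ring
        _ ≤ (k ^ 2 * N) ^ r * (1 - r / N) ^ r := by gcongr
        _ = k ^ (2 * r) * ((N : ℝ) - r) ^ r := by
          rw [← mul_pow, pow_mul, ← mul_pow]
          congr 1
          field_simp
        _ ≤ k ^ (2 * r) * ((N : ℝ) - r + 1) ^ r := by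
          gcongr
          · have : (r : ℝ) ≤ N := by exact_mod_cast hrN
            linarith
          · linarith
        _ ≤ _ := by gcongr
    -- factorial bound
    have hfac := factorial_le r hpos
    have hfac2 : (r.factorial : ℝ) ^ 2 ≤ Real.exp 1 ^ 2 * r * ((r : ℝ) ^ (2 * r) / Real.exp 1 ^ (2 * r)) := by
      calc (r.factorial : ℝ) ^ 2 ≤ (Real.exp 1 * √(r : ℝ) * (r / Real.exp 1) ^ r) ^ 2 := by gcongr
        _ = Real.exp 1 ^ 2 * (√(r : ℝ)) ^ 2 * ((r / Real.exp 1) ^ r) ^ 2 := by ring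
        _ = _ := by
          rw [Real.sq_sqrt (by positivity), ← pow_mul, mul_comm r 2, div_pow]
    have hlow : Real.exp 1 ^ (2 * r) / (2 * Real.exp 1 ^ 2 * (r + 1) * (r + 1)) ≤ Phi σ N := by
      refine le_trans ?_ hPhi
      have hfp : (0 : ℝ) < r.factorial := by positivity
      rw [Nat.factorial_succ]
      push_cast
      rw [div_mul_eq_mul_div, div_le_div_iff₀ (by positivity) (by positivity)]
      -- exp^(2r) * ((r+1) r!) ≤ k^(2r) C * (2 e² (r+1)(r+1))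
      have e0 : (0 : ℝ) < Real.exp 1 := Real.exp_pos 1
      have key : Real.exp 1 ^ (2 * r) * (r.factorial : ℝ) ^ 2 ≤
          2 * Real.exp 1 ^ 2 * r * (k ^ (2 * r) * (r.factorial * (N.choose r : ℝ))) := by
        calc Real.exp 1 ^ (2 * r) * (r.factorial : ℝ) ^ 2
            ≤ Real.exp 1 ^ (2 * r) * (Real.exp 1 ^ 2 * r * ((r : ℝ) ^ (2 * r) / Real.exp 1 ^ (2 * r))) := by
              gcongr
          _ = 2 * Real.exp 1 ^ 2 * r * ((r : ℝ) ^ (2 * r) / 2) := by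
              field_simp
          _ ≤ _ := by gcongr
      have key2 : Real.exp 1 ^ (2 * r) * (r.factorial : ℝ) ≤
          2 * Real.exp 1 ^ 2 * r * (k ^ (2 * r) * (N.choose r : ℝ)) := by
        have : (r.factorial : ℝ) * (Real.exp 1 ^ (2 * r) * (r.factorial : ℝ)) ≤
            r.factorial * (2 * Real.exp 1 ^ 2 * r * (k ^ (2 * r) * (N.choose r : ℝ))) := by
          calc _ = Real.exp 1 ^ (2 * r) * (r.factorial : ℝ) ^ 2 := by ring
            _ ≤ _ := key
            _ = _ := by ring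
        exact le_of_mul_le_mul_left this hfp
      calc Real.exp 1 ^ (2 * r) * (((r : ℝ) + 1) * (r.factorial : ℝ))
          = (r + 1) * (Real.exp 1 ^ (2 * r) * (r.factorial : ℝ)) := by ring
        _ ≤ (r + 1) * (2 * Real.exp 1 ^ 2 * r * (k ^ (2 * r) * (N.choose r : ℝ))) := by gcongr
        _ ≤ (r + 1) * (2 * Real.exp 1 ^ 2 * (r + 1) * (k ^ (2 * r) * (N.choose r : ℝ))) := by
            gcongr
            linarith
        _ = _ := by ring
    have hlog := Real.log_le_log (by positivity) hlow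
    have e1 : Real.log (Real.exp 1 ^ (2 * r) / (2 * Real.exp 1 ^ 2 * (r + 1) * (r + 1))) =
        2 * r - (Real.log 2 + 2 + 2 * Real.log (r + 1)) := by
      rw [Real.log_div (by positivity) (by positivity), Real.log_pow, Real.log_exp,
        Real.log_mul (by positivity) (by positivity), Real.log_mul (by positivity) (by positivity),
        Real.log_mul (by positivity) (by positivity), Real.log_pow, Real.log_exp]
      push_cast
      ring
    rw [e1] at hlog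
    have h2 : Real.log ((r : ℝ) + 1) ≤ Real.log (1 + k * √(N : ℝ)) :=
      Real.log_le_log (by positivity) (by linarith)
    have h3 : Real.log 2 ≤ 1 := by
      have := Real.log_two_lt_d9
      linarith
    linarith

lemma defect_total {σ : ℝ} (hσ : 1 < σ) (hk : (σ - σ⁻¹) ^ 2 ≤ 1 / 2) (N : ℕ) :
    ∑ n ∈ range N, (1 - rho σ n) / √((n : ℝ) + 1) ≤
      (5 + 2 * Real.log (1 + (σ - σ⁻¹) * √(N : ℝ))) / (σ - σ⁻¹) := by
  have hk0 : 0 < σ - σ⁻¹ := by
    have : σ⁻¹ < 1 := inv_lt_one_of_one_lt₀ hσ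
    linarith
  refine (defect_le hσ N).trans ?_
  gcongr
  have := log_Phi_ge hσ hk N
  linarith

end Helper29.Yng
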