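import Pool.Agent.Helper29.Frege.Young

/-!
Exact recursion for the exponential content moment, tilted Plancherel sums.
-/

namespace Helper29.Yng

open Finset

/-- `∑` over addable boxes of `s^content * f(l + box)`. -/
noncomputable def h (s : ℝ) (l : ℕ →₀ ℕ) : ℝ := ∑ i ∈ A l, s ^ (c l i) * (f (l + e i) : ℝ)

noncomputable def Psi (s : ℝ) (n : ℕ) : ℝ := ∑ l ∈ Y n, (f l : ℝ) * h s l

noncomputable def TT (s : ℝ) (n : ℕ) : ℝ := ∑ l ∈ Y n, T s l * (f l : ℝ) ^ 2

noncomputable def F (s : ℝ) (n : ℕ) : ℝ := ∑ l ∈ Y n, (f l : ℝ) ^ 2 * s ^ (l 0)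

noncomputable def X (s : ℝ) (n : ℕ) : ℝ := ∑ l ∈ Y n, (f l : ℝ) * f (l + e 0) * s ^ (l 0)

lemma h_rec (s : ℝ) {l : ℕ →₀ ℕ} (hl : Prt l) :
    h s l = T s l * f l + ∑ j ∈ R l, h s (l - e j) := by
  have h1 : h s l = ∑ i ∈ A l, s ^ (c l i) * ∑ j ∈ R (l + e i), (f (l + e i - e j) : ℝ) := by
    unfold h
    apply Finset.sum_congr rfl
    intro i hi
    rw [f_rec (hl.up hi) (by rw [sz_add_e]; omega)]
    push_cast
    rfl
  rw [h1, swap_sum s hl (fun l => (f l : ℝ))]
  rfl

lemma Psi_zero (s : ℝ) : Psi s 0 = 1 := by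
  unfold Psi h
  rw [Y_zero, Finset.sum_singleton, A_zero, Finset.sum_singleton, zero_add, f_e0, f_zero]
  simp [c]

lemma TT_zero (s : ℝ) : TT s 0 = 1 := by
  unfold TT
  rw [Y_zero, Finset.sum_singleton, f_zero, T_zero]
  simp

lemma F_zero (s : ℝ) : F s 0 = 1 := by
  unfold F
  rw [Y_zero, Finset.sum_singleton, f_zero]
  simp

lemma f_rec' {m : ℕ →₀ ℕ} {n : ℕ} (hm : m ∈ Y (n + 1)) : (f m : ℝ) = ∑ i ∈ R m, (f (m - e i) : ℝ) := by
  rw [mem_Y] at hm
  rw [f_rec hm.1 (by omega)]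
  push_cast
  rfl

lemma Psi_succ (s : ℝ) (n : ℕ) : Psi s (n + 1) = TT s (n + 1) + (n + 1) * Psi s n := by
  unfold Psi
  have h1 : ∑ l ∈ Y (n + 1), (f l : ℝ) * h s l =
      TT s (n + 1) + ∑ m ∈ Y (n + 1), ∑ j ∈ R m, (f (m - e j + e j) : ℝ) * h s (m - e j) := by
    unfold TT
    rw [← Finset.sum_add_distrib]
    apply Finset.sum_congr rfl
    intro l hl
    rw [mem_Y] at hl
    rw [h_rec s hl.1, mul_add, Finset.mul_sum]
    congr 1
    · ring
    · apply Finset.sum_congr rfl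
      intro j hj
      rw [sub_add_e (one_le_of_R hl.1 hj)]
  rw [h1, ← pair_sum n (fun l j => (f (l + e j) : ℝ) * h s l)]
  congr 1
  rw [Finset.mul_sum]
  apply Finset.sum_congr rfl
  intro l hl
  rw [mem_Y] at hl
  rw [← Finset.sum_mul, up_sum n l hl.1 hl.2]
  ring

lemma TT_succ {s : ℝ} (hs : s ≠ 0) (n : ℕ) :
    TT s (n + 1) = (n + 1) * TT s n + (s - 2 + s⁻¹) * Psi s n := by
  have h1 : TT s (n + 1) =
      ∑ m ∈ Y (n + 1), ∑ i ∈ R m, T s (m - e i + e i) * (f (m - e i + e i) : ℝ) * f (m - e i) := by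
    unfold TT
    apply Finset.sum_congr rfl
    intro m hm
    have h2 := f_rec' hm
    rw [mem_Y] at hm
    calc T s m * (f m : ℝ) ^ 2 = T s m * f m * f m := by ring
      _ = T s m * f m * ∑ i ∈ R m, (f (m - e i) : ℝ) := by rw [← h2]
      _ = _ := by
        rw [Finset.mul_sum]
        apply Finset.sum_congr rfl
        intro i hi
        rw [sub_add_e (one_le_of_R hm.1 hi)]
  rw [h1, ← pair_sum n (fun l i => T s (l + e i) * (f (l + e i) : ℝ) * f l)]
  unfold TT Psi
  rw [Finset.mul_sum, Finset.mul_sum, ← Finset.sum_add_distrib]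
  apply Finset.sum_congr rfl
  intro l hl
  rw [mem_Y] at hl
  have h3 : ∀ i ∈ A l, T s (l + e i) * (f (l + e i) : ℝ) * f l =
      T s l * f l * f (l + e i) + (s - 2 + s⁻¹) * f l * (s ^ (c l i) * f (l + e i)) := by
    intro i hi
    rw [T_up hs hl.1 hi]
    ring
  rw [Finset.sum_congr rfl h3, Finset.sum_add_distrib, ← Finset.mul_sum, ← Finset.mul_sum,
    up_sum n l hl.1 hl.2]
  unfold h
  ring

lemma F_succ (s : ℝ) (n : ℕ) : F s (n + 1) = (n + 1) * F s n + (s - 1) * X s n := by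
  have h1 : F s (n + 1) =
      ∑ m ∈ Y (n + 1), ∑ i ∈ R m, (f (m - e i + e i) : ℝ) * f (m - e i) * s ^ ((m - e i + e i) 0) := by
    unfold F
    apply Finset.sum_congr rfl
    intro m hm
    have h2 := f_rec' hm
    rw [mem_Y] at hm
    calc (f m : ℝ) ^ 2 * s ^ (m 0) = f m * s ^ (m 0) * f m := by ring
      _ = f m * s ^ (m 0) * ∑ i ∈ R m, (f (m - e i) : ℝ) := by rw [← h2]
      _ = _ := by
        rw [Finset.mul_sum]
        apply Finset.sum_congr rfl
        intro i hi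
        rw [sub_add_e (one_le_of_R hm.1 hi)]
        ring
  rw [h1, ← pair_sum n (fun l i => (f (l + e i) : ℝ) * f l * s ^ ((l + e i) 0))]
  unfold F X
  rw [Finset.mul_sum, Finset.mul_sum, ← Finset.sum_add_distrib]
  apply Finset.sum_congr rfl
  intro l hl
  rw [mem_Y] at hl
  have h0 : (0 : ℕ) ∈ A l := (mem_A hl.1).2 (Or.inl rfl)
  have h3 : ∀ i ∈ A l, (f (l + e i) : ℝ) * f l * s ^ ((l + e i) 0) =
      f l * s ^ (l 0) * f (l + e i) + if i = 0 then (s - 1) * (f l * f (l + e 0) * s ^ (l 0)) else 0 := by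
    intro i hi
    rw [add_e_apply]
    split_ifs with h4
    · subst h4
      rw [pow_succ]; ring
    · simp; ring
  rw [Finset.sum_congr rfl h3, Finset.sum_add_distrib, ← Finset.mul_sum, up_sum n l hl.1 hl.2,
    Finset.sum_ite_eq' , if_pos h0]
  ring

lemma X_nonneg {s : ℝ} (hs : 0 ≤ s) (n : ℕ) : 0 ≤ X s n :=
  Finset.sum_nonneg (fun l _ => by positivity)

/-- The exact exponential content moment, lower bound by one term. -/
lemma psi_ge {s : ℝ} (hs : 0 < s) (hk : 0 ≤ s - 2 + s⁻¹) (r : ℕ) : ∀ n : ℕ,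
    (s - 2 + s⁻¹) ^ r / ((r + 1).factorial : ℝ) * (n.choose r : ℝ) ≤ Psi s n / ((n + 1).factorial : ℝ) := by
  set k := s - 2 + s⁻¹ with hkdef
  set ps : ℕ → ℝ := fun n => Psi s n / ((n + 1).factorial : ℝ) with hps
  set tt : ℕ → ℝ := fun n => TT s n / (n.factorial : ℝ) with htt
  have r1 : ∀ n : ℕ, ((n : ℝ) + 2) * ps (n + 1) = tt (n + 1) + (n + 1) * ps n := by
    intro n
    simp only [hps, htt]
    rw [Psi_succ, Nat.factorial_succ (n + 1), Nat.factorial_succ n]
    have : (n.factorial : ℝ) ≠ 0 := by positivity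
    push_cast
    field_simp
    ring
  have r2 : ∀ n : ℕ, tt (n + 1) = tt n + k * ps n := by
    intro n
    simp only [hps, htt]
    rw [TT_succ hs.ne', ← hkdef, Nat.factorial_succ n]
    have : (n.factorial : ℝ) ≠ 0 := by positivity
    push_cast
    field_simp
  have p0 : ps 0 = 1 := by simp [hps, Psi_zero]
  have t0 : tt 0 = 1 := by simp [htt, TT_zero]
  have base : ∀ n : ℕ, 1 ≤ tt n ∧ 1 ≤ ps n := by
    intro n
    induction n with
    | zero => exact ⟨t0.ge, p0.ge⟩
    | succ n ih =>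
      have h1 : 1 ≤ tt (n + 1) := by
        rw [r2]
        have := mul_nonneg hk (by linarith [ih.2] : 0 ≤ ps n)
        linarith [ih.1]
      refine ⟨h1, ?_⟩
      have h2 := r1 n
      have h3 : (0 : ℝ) ≤ n := Nat.cast_nonneg n
      have h4 : ((n : ℝ) + 2) * 1 ≤ ((n : ℝ) + 2) * ps (n + 1) := by
        rw [h2]; nlinarith [ih.2]
      exact le_of_mul_le_mul_left h4 (by linarith)
  induction r with
  | zero =>
    intro n
    have := (base n).2
    simpa using this
  | succ r ih =>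
    set a : ℝ := k ^ r / ((r + 1).factorial : ℝ) with ha
    have ha0 : 0 ≤ a := by positivity
    have ht : ∀ n : ℕ, k * a * (n.choose (r + 1) : ℝ) ≤ tt n := by
      intro n
      induction n with
      | zero => simp [t0]
      | succ n ihn =>
        rw [r2, Nat.choose_succ_succ]
        push_cast
        have := mul_le_mul_of_nonneg_left (ih n) hk
        nlinarith
    have hp : ∀ n : ℕ, k * a * ((n + 1).choose (r + 2) : ℝ) ≤ ((n : ℝ) + 1) * ps n := by
      intro n
      induction n with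
      | zero =>
        rw [Nat.choose_eq_zero_of_lt (by omega : 0 + 1 < r + 2)]
        simp [p0]
      | succ n ihn =>
        have h2 := r1 n
        rw [Nat.choose_succ_succ (n + 1) (r + 1)]
        push_cast
        have h3 := ht (n + 1)
        have h4 : ((n : ℝ) + 1 + 1) * ps (n + 1) = tt (n + 1) + (n + 1) * ps n := by
          rw [← h2]; ring
        rw [h4, mul_add]
        linarith
    intro n
    have h5 := hp n
    have h6 : ((n + 1).choose (r + 2) : ℝ) * ((r : ℝ) + 2) = (n + 1) * (n.choose (r + 1) : ℝ) := by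
      have := Nat.add_one_mul_choose_eq n (r + 1)
      have h7 : ((n + 1) * n.choose (r + 1) : ℕ) = (n + 1).choose (r + 1 + 1) * (r + 1 + 1) := this
      have h8 : (((n + 1) * n.choose (r + 1) : ℕ) : ℝ) = (((n + 1).choose (r + 1 + 1) * (r + 1 + 1) : ℕ) : ℝ) := by
        rw [h7]
      push_cast at h8
      rw [h8]; ring
    have hn : (0 : ℝ) < n + 1 := by positivity
    have hr : (0 : ℝ) < r + 2 := by positivity
    have e1 : k ^ (r + 1) / (((r + 1) + 1).factorial : ℝ) = k * a / (r + 2) := by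
      rw [ha, Nat.factorial_succ (r + 1)]
      have : ((r + 1).factorial : ℝ) ≠ 0 := by positivity
      push_cast
      field_simp
      ring
    rw [e1]
    have h9 : k * a / (r + 2) * (n.choose (r + 1) : ℝ) =
        k * a * ((n + 1).choose (r + 2) : ℝ) / (n + 1) := by
      rw [eq_div_iff hn.ne', div_mul_eq_mul_div, div_mul_eq_mul_div, div_eq_iff hr.ne']
      linear_combination (-(k * a)) * h6
    rw [h9, div_le_iff₀ hn]
    calc _ ≤ ((n : ℝ) + 1) * ps n := h5
      _ = ps n * (n + 1) := by ring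

lemma Psi_le_F {s : ℝ} (hs : 1 ≤ s) (n : ℕ) : Psi s n ≤ (n + 1) * F s n := by
  unfold Psi F
  rw [Finset.mul_sum]
  apply Finset.sum_le_sum
  intro l hl
  rw [mem_Y] at hl
  have h1 : h s l ≤ s ^ (l 0) * ∑ i ∈ A l, (f (l + e i) : ℝ) := by
    unfold h
    rw [Finset.mul_sum]
    apply Finset.sum_le_sum
    intro i _
    apply mul_le_mul_of_nonneg_right _ (Nat.cast_nonneg _)
    rw [← zpow_natCast]
    apply zpow_le_zpow_right₀ hs
    unfold c
    have := hl.1.anti (Nat.zero_le i)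
    omega
  rw [up_sum n l hl.1 hl.2] at h1
  have := mul_le_mul_of_nonneg_left h1 (Nat.cast_nonneg (f l) : (0:ℝ) ≤ f l)
  calc _ ≤ _ := this
    _ = _ := by ring

lemma Phi_ge {s : ℝ} (hs : 1 ≤ s) (hk : 0 ≤ s - 2 + s⁻¹) (n r : ℕ) :
    (s - 2 + s⁻¹) ^ r / ((r + 1).factorial : ℝ) * (n.choose r : ℝ) ≤ F s n / (n.factorial : ℝ) := by
  refine (psi_ge (by linarith) hk r n).trans ?_
  rw [div_le_div_iff₀ (by positivity) (by positivity), Nat.factorial_succ]
  have := Psi_le_F hs n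
  push_cast
  nlinarith [show (0:ℝ) < n.factorial by positivity]

lemma F_pos {s : ℝ} (hs : 1 ≤ s) (n : ℕ) : 0 < F s n := by
  induction n with
  | zero => rw [F_zero]; norm_num
  | succ n ih =>
    rw [F_succ]
    have h1 := X_nonneg (by linarith : (0:ℝ) ≤ s) n
    have h2 : 0 ≤ (s - 1) * X s n := mul_nonneg (by linarith) h1
    have : (0:ℝ) < n + 1 := by positivity
    have := mul_pos this ih
    linarith

/-- Injectivity of the first-row shift. -/
lemma add_e0_mem {n : ℕ} {l : ℕ →₀ ℕ} (hl : l ∈ Y n) : l + e 0 ∈ Y (n + 1) := by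
  rw [mem_Y] at hl ⊢
  exact ⟨hl.1.up ((mem_A hl.1).2 (Or.inl rfl)), by rw [sz_add_e, hl.2]⟩

end Helper29.Yng
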