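import Pool.Agent.Helper29.Frege.Exact

/-!
Geometry of the tilted Plancherel vectors under the first row shift.
-/

namespace Helper29.Yng

open Finset

/-- `j` boxes in the first row -/
noncomputable abbrev z (j : ℕ) : ℕ →₀ ℕ := Finsupp.single 0 j

/-- unit vector of level `n` -/
noncomputable def v (σ : ℝ) (n : ℕ) (l : ℕ →₀ ℕ) : ℝ := f l * σ ^ (l 0) / √(F (σ ^ 2) n)

/-- level `n` vector shifted to level `m` -/
noncomputable def V (σ : ℝ) (m n : ℕ) (L : ℕ →₀ ℕ) : ℝ :=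
  if (m - n) + L 1 ≤ L 0 then v σ n (L - z (m - n)) else 0

lemma add_s_apply (l : ℕ →₀ ℕ) (j i : ℕ) : (l + z j) i = l i + if 0 = i then j else 0 := by
  simp [Finsupp.single_apply]

lemma sub_s_apply (l : ℕ →₀ ℕ) (j i : ℕ) : (l - z j) i = l i - if 0 = i then j else 0 := by
  rw [Finsupp.tsub_apply, Finsupp.single_apply]

lemma add_s_mem {n j : ℕ} {l : ℕ →₀ ℕ} (hl : l ∈ Y n) : l + z j ∈ Y (n + j) := by
  rw [mem_Y] at hl ⊢
  refine ⟨?_, ?_⟩
  · intro i
    rw [add_s_apply, add_s_apply]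
    have h1 : l (i + 1) ≤ l i := hl.1 i
    have h2 : ¬ (0 = i + 1) := by omega
    rw [if_neg h2]
    omega
  · rw [sz_add, hl.2]
    simp [sz, Finsupp.degree_single]

lemma sub_s_add {j : ℕ} {L : ℕ →₀ ℕ} (h : j ≤ L 0) :
    L - z j + z j = L := by
  ext i
  rw [add_s_apply, sub_s_apply]
  split_ifs with h1
  · subst h1; omega
  · omega

lemma add_s_sub {j : ℕ} {l : ℕ →₀ ℕ} : l + z j - z j = l := by
  ext i
  rw [sub_s_apply, add_s_apply]
  split_ifs <;> omega

lemma sub_s_mem {n j : ℕ} {L : ℕ →₀ ℕ} (hL : L ∈ Y (n + j)) (h : j + L 1 ≤ L 0) :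
    L - z j ∈ Y n := by
  rw [mem_Y] at hL ⊢
  refine ⟨?_, ?_⟩
  · intro i
    rw [sub_s_apply, sub_s_apply]
    have h1 : L (i + 1) ≤ L i := hL.1 i
    have h2 : ¬ (0 = i + 1) := by omega
    rw [if_neg h2, Nat.sub_zero]
    rcases Nat.eq_zero_or_pos i with h3 | h3
    · subst h3
      rw [if_pos rfl]
      rw [zero_add]
      omega
    · rw [if_neg (by omega)]
      omega
  · have h1 := sub_s_add (show j ≤ L 0 by omega)
    have h2 : sz (L - z j) + sz (z j) = sz L := by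
      rw [← sz_add, h1]
    have h3 : sz (z j) = j := by simp [sz, Finsupp.degree_single]
    omega

lemma shift_sum {β : Type*} [AddCommMonoid β] (n j : ℕ) (G : (ℕ →₀ ℕ) → β) :
    ∑ L ∈ Y (n + j), (if j + L 1 ≤ L 0 then G (L - z j) else 0) = ∑ l ∈ Y n, G l := by
  classical
  rw [← Finset.sum_filter]
  refine Finset.sum_bij' (fun L _ => L - z j) (fun l _ => l + z j)
    ?_ ?_ ?_ ?_ ?_
  · intro L hL
    rw [Finset.mem_filter] at hL
    exact sub_s_mem hL.1 hL.2
  · intro l hl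
    rw [Finset.mem_filter]
    refine ⟨add_s_mem hl, ?_⟩
    rw [add_s_apply, add_s_apply]
    have h1 : l 1 ≤ l 0 := (mem_Y.1 hl).1 0
    rw [if_pos rfl, if_neg (by omega)]
    omega
  · intro L hL
    rw [Finset.mem_filter] at hL
    exact sub_s_add (by omega)
  · intro l hl
    exact add_s_sub
  · intro L hL
    rfl

lemma V_inner (σ : ℝ) {m n n' : ℕ} (h : n ≤ n') (h' : n' ≤ m) :
    ∑ L ∈ Y m, V σ m n L * V σ m n' L = ∑ l ∈ Y n, v σ n l * v σ n' (l + z (n' - n)) := by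
  have hm : m = n + (m - n) := by omega
  rw [← shift_sum n (m - n), ← hm]
  apply Finset.sum_congr rfl
  intro L _
  unfold V
  by_cases h1 : (m - n) + L 1 ≤ L 0
  · have h2 : (m - n') + L 1 ≤ L 0 := by omega
    rw [if_pos h1, if_pos h2, if_pos h1]
    congr 2
    ext i
    rw [add_s_apply, sub_s_apply, sub_s_apply]
    split_ifs with h3
    · subst h3; omega
    · omega
  · rw [if_neg h1, if_neg h1, zero_mul]

lemma F_sum_v (σ : ℝ) (hσ : 1 ≤ σ) (n : ℕ) : ∑ l ∈ Y n, v σ n l * v σ n l = 1 := by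
  have hF : 0 < F (σ ^ 2) n := F_pos (by nlinarith) n
  have h1 : ∀ l ∈ Y n, v σ n l * v σ n l = (f l : ℝ) ^ 2 * (σ ^ 2) ^ (l 0) / F (σ ^ 2) n := by
    intro l _
    unfold v
    rw [div_mul_div_comm, Real.mul_self_sqrt hF.le]
    congr 1
    rw [← pow_mul, mul_comm 2, pow_mul]
    ring
  rw [Finset.sum_congr rfl h1, ← Finset.sum_div]
  unfold F
  unfold F at hF
  exact div_self hF.ne'

lemma V_norm (σ : ℝ) (hσ : 1 ≤ σ) {m n : ℕ} (h : n ≤ m) : ∑ L ∈ Y m, V σ m n L * V σ m n L = 1 := by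
  rw [V_inner σ le_rfl h, Nat.sub_self, show z 0 = 0 from Finsupp.single_zero 0, ← F_sum_v σ hσ n]
  apply Finset.sum_congr rfl
  intro l _
  rw [add_zero]

/-- overlap -/
noncomputable def rho (σ : ℝ) (n : ℕ) : ℝ := σ * X (σ ^ 2) n / √(F (σ ^ 2) n * F (σ ^ 2) (n + 1))

lemma rho_eq (σ : ℝ) (hσ : 1 ≤ σ) (n : ℕ) :
    ∑ l ∈ Y n, v σ n l * v σ (n + 1) (l + z 1) = rho σ n := by
  have hF : 0 < F (σ ^ 2) n := F_pos (by nlinarith) n
  unfold rho X
  rw [Finset.mul_sum, Finset.sum_div]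
  apply Finset.sum_congr rfl
  intro l _
  unfold v
  rw [div_mul_div_comm, ← Real.sqrt_mul hF.le]
  congr 1
  rw [add_s_apply]
  simp only [if_true]
  rw [← pow_mul, mul_comm 2, pow_mul, pow_succ]
  ring

/-- The Euclidean vector at level `m`. -/
noncomputable def vec (m : ℕ) (a : (ℕ →₀ ℕ) → ℝ) : EuclideanSpace ℝ (Y m) :=
  WithLp.toLp 2 (fun x => a x)

lemma vec_norm_sq (m : ℕ) (a : (ℕ →₀ ℕ) → ℝ) : ‖vec m a‖ ^ 2 = ∑ L ∈ Y m, a L * a L := by
  rw [EuclideanSpace.norm_sq_eq]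
  rw [← Finset.sum_coe_sort (Y m) (fun L => a L * a L)]
  apply Finset.sum_congr rfl
  intro x _
  simp [vec, sq]

lemma dist_step (σ : ℝ) (hσ : 1 ≤ σ) {m n : ℕ} (h : n + 1 ≤ m) :
    ‖vec m (V σ m n) - vec m (V σ m (n + 1))‖ = √(2 * (1 - rho σ n)) := by
  have h1 : vec m (V σ m n) - vec m (V σ m (n + 1)) = vec m (fun L => V σ m n L - V σ m (n + 1) L) := by
    ext x; simp [vec]
  rw [h1, ← Real.sqrt_sq (norm_nonneg _), vec_norm_sq]
  congr 1
  have h2 : ∑ L ∈ Y m, (V σ m n L - V σ m (n + 1) L) * (V σ m n L - V σ m (n + 1) L) =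
      ∑ L ∈ Y m, V σ m n L * V σ m n L + ∑ L ∈ Y m, V σ m (n + 1) L * V σ m (n + 1) L -
      2 * ∑ L ∈ Y m, V σ m n L * V σ m (n + 1) L := by
    rw [Finset.mul_sum, ← Finset.sum_add_distrib, ← Finset.sum_sub_distrib]
    apply Finset.sum_congr rfl
    intro L _
    ring
  rw [h2, V_norm σ hσ (by omega), V_norm σ hσ h, V_inner σ (by omega) h]
  have h3 : n + 1 - n = 1 := by omega
  rw [h3, rho_eq σ hσ]
  ring

lemma rho_le_one (σ : ℝ) (hσ : 1 ≤ σ) (n : ℕ) : rho σ n ≤ 1 := by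
  by_contra hc
  push Not at hc
  have h1 := dist_step σ hσ (m := n + 1) (n := n) le_rfl
  have h2 : ∑ L ∈ Y (n + 1), (V σ (n + 1) n L - V σ (n + 1) (n + 1) L) ^ 2 =
      2 * (1 - rho σ n) := by
    have h3 : ∑ L ∈ Y (n + 1), (V σ (n + 1) n L - V σ (n + 1) (n + 1) L) ^ 2 =
        ∑ L ∈ Y (n + 1), V σ (n + 1) n L * V σ (n + 1) n L +
        ∑ L ∈ Y (n + 1), V σ (n + 1) (n + 1) L * V σ (n + 1) (n + 1) L -
        2 * ∑ L ∈ Y (n + 1), V σ (n + 1) n L * V σ (n + 1) (n + 1) L := by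
      rw [Finset.mul_sum, ← Finset.sum_add_distrib, ← Finset.sum_sub_distrib]
      apply Finset.sum_congr rfl
      intro L _
      ring
    rw [h3, V_norm σ hσ (by omega), V_norm σ hσ le_rfl, V_inner σ (by omega) le_rfl]
    have h3 : n + 1 - n = 1 := by omega
    rw [h3, rho_eq σ hσ]
    ring
  have h4 : 0 ≤ ∑ L ∈ Y (n + 1), (V σ (n + 1) n L - V σ (n + 1) (n + 1) L) ^ 2 :=
    Finset.sum_nonneg (fun _ _ => sq_nonneg _)
  linarith

lemma dist_chain (σ : ℝ) (hσ : 1 ≤ σ) {m : ℕ} (a j : ℕ) (h : a + j ≤ m) :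
    ‖vec m (V σ m a) - vec m (V σ m (a + j))‖ ≤ ∑ n ∈ Finset.Ico a (a + j), √(2 * (1 - rho σ n)) := by
  induction j with
  | zero => simp
  | succ j ih =>
    rw [← add_assoc, Finset.sum_Ico_succ_top (by omega), ← dist_step σ hσ (m := m) (by omega)]
    calc ‖vec m (V σ m a) - vec m (V σ m (a + j + 1))‖
        = ‖(vec m (V σ m a) - vec m (V σ m (a + j))) + (vec m (V σ m (a + j)) - vec m (V σ m (a + j + 1)))‖ := by
          congr 1; abel
      _ ≤ _ := norm_add_le _ _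
      _ ≤ _ := by gcongr; exact ih (by omega)

lemma le_of_sq_le_sq' {x y : ℝ} (hy : 0 ≤ y) (h : x ^ 2 ≤ y ^ 2) : x ≤ y := by
  by_contra hc
  push Not at hc
  nlinarith

/-- The gap estimate from the total distance. -/
lemma gap_lower (σ : ℝ) (hσ : 1 ≤ σ) (n n0 q : ℕ) (hn : n0 ≤ n)
    (hd : ∑ i ∈ Finset.Ico (n - n0) (n + q), √(2 * (1 - rho σ i)) ≤ 1 / 4) :
    1 / 2 ≤ ∑ l ∈ Y n, (if n0 + l 1 ≤ l 0 then v σ n l * v σ (n + q) (l + z q) else 0) := by
  classical
  set m := n + q with hm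
  set a := n - n0 with ha
  have hsplit : ∑ i ∈ Finset.Ico a n, √(2 * (1 - rho σ i)) + ∑ i ∈ Finset.Ico n m, √(2 * (1 - rho σ i))
      ≤ 1 / 4 := by
    rw [Finset.sum_Ico_consecutive _ (by omega) (by omega)]
    exact hd
  have hnn : 0 ≤ ∑ i ∈ Finset.Ico a n, √(2 * (1 - rho σ i)) :=
    Finset.sum_nonneg (fun _ _ => Real.sqrt_nonneg _)
  have hnn' : 0 ≤ ∑ i ∈ Finset.Ico n m, √(2 * (1 - rho σ i)) :=
    Finset.sum_nonneg (fun _ _ => Real.sqrt_nonneg _)
  have d1 : ‖vec m (V σ m a) - vec m (V σ m n)‖ ≤ 1 / 4 := by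
    have := dist_chain σ hσ (m := m) a n0 (by omega)
    rw [show a + n0 = n by omega] at this
    linarith
  have d2 : ‖vec m (V σ m n) - vec m (V σ m m)‖ ≤ 1 / 4 := by
    have := dist_chain σ hσ (m := m) n q (by omega)
    rw [show n + q = m by omega] at this
    linarith
  -- truncation
  set g : (ℕ →₀ ℕ) → ℝ := fun L => if (m - a) + L 1 ≤ L 0 then 0 else V σ m n L with hg
  have hgn : ‖vec m g‖ ≤ 1 / 4 := by
    refine le_trans ?_ d1
    have h1 : vec m (V σ m a) - vec m (V σ m n) = vec m (fun L => V σ m a L - V σ m n L) := by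
      ext x; simp [vec]
    rw [h1]
    apply le_of_sq_le_sq' (norm_nonneg _)
    rw [vec_norm_sq, vec_norm_sq]
    apply Finset.sum_le_sum
    intro L _
    simp only [hg]
    split_ifs with h2
    · simpa using mul_self_nonneg _
    · have h3 : V σ m a L = 0 := by unfold V; rw [if_neg h2]
      rw [h3, zero_sub, neg_mul_neg]
  have hmm : ‖vec m (V σ m m)‖ = 1 := by
    have := vec_norm_sq m (V σ m m)
    rw [V_norm σ hσ le_rfl] at this
    have h0 := norm_nonneg (vec m (V σ m m))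
    nlinarith
  have i1 : |∑ L ∈ Y m, g L * V σ m m L| ≤ 1 / 4 := by
    have h1 : ∑ L ∈ Y m, g L * V σ m m L = inner ℝ (vec m (V σ m m)) (vec m g) := by
      rw [PiLp.inner_apply, ← Finset.sum_coe_sort (Y m) (fun L => g L * V σ m m L)]
      apply Finset.sum_congr rfl
      intro x _
      simp [vec]
    rw [h1]
    have := abs_real_inner_le_norm (vec m (V σ m m)) (vec m g)
    rw [hmm, one_mul] at this
    linarith
  have i2 : 1 - 1 / 32 ≤ ∑ L ∈ Y m, V σ m n L * V σ m m L := by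
    have h1 : vec m (V σ m n) - vec m (V σ m m) = vec m (fun L => V σ m n L - V σ m m L) := by
      ext x; simp [vec]
    have h2 := vec_norm_sq m (fun L => V σ m n L - V σ m m L)
    rw [← h1] at h2
    have h3 : ∑ L ∈ Y m, (V σ m n L - V σ m m L) * (V σ m n L - V σ m m L) =
        ∑ L ∈ Y m, V σ m n L * V σ m n L + ∑ L ∈ Y m, V σ m m L * V σ m m L -
        2 * ∑ L ∈ Y m, V σ m n L * V σ m m L := by
      rw [Finset.mul_sum, ← Finset.sum_add_distrib, ← Finset.sum_sub_distrib]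
      apply Finset.sum_congr rfl
      intro L _
      ring
    rw [h3, V_norm σ hσ (by omega), V_norm σ hσ le_rfl] at h2
    have h0 := norm_nonneg (vec m (V σ m n) - vec m (V σ m m))
    nlinarith
  have i3 : ∑ L ∈ Y m, V σ m n L * V σ m m L - ∑ L ∈ Y m, g L * V σ m m L =
      ∑ l ∈ Y n, (if n0 + l 1 ≤ l 0 then v σ n l * v σ (n + q) (l + z q) else 0) := by
    rw [← shift_sum n (m - n), show n + (m - n) = m by omega, ← Finset.sum_sub_distrib]
    apply Finset.sum_congr rfl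
    intro L hLm
    simp only [hg]
    rw [← sub_mul]
    have hmn : m - n = q := by omega
    have hV : V σ m m L = v σ m L := by
      unfold V
      have : (m - m) + L 1 ≤ L 0 ∨ ¬ ((m - m) + L 1 ≤ L 0) := em _
      rcases this with h | h
      · rw [if_pos h]; simp
      · exfalso
        have h9 : L 1 ≤ L 0 := (mem_Y.1 hLm).1 0
        omega
    by_cases h2 : (m - a) + L 1 ≤ L 0
    · rw [if_pos h2, sub_zero, hV]
      have h3 : (m - n) + L 1 ≤ L 0 := by omega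
      rw [if_pos h3]
      have h4 : n0 + (L - z (m - n)) 1 ≤ (L - z (m - n)) 0 := by
        rw [sub_s_apply, sub_s_apply]
        simp
        omega
      rw [if_pos h4]
      unfold V
      rw [if_pos h3, hmn, sub_s_add (by omega)]
    · rw [if_neg h2, sub_self, zero_mul]
      split_ifs with h3 h4
      · exfalso
        rw [sub_s_apply, sub_s_apply] at h4
        simp at h4
        omega
      · rfl
      · rfl
  rw [← i3]
  have := (abs_le.1 i1).2
  linarith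

lemma total_upper (σ : ℝ) (hσ : 1 ≤ σ) (n q : ℕ) :
    ∑ l ∈ Y n, v σ n l * v σ (n + q) (l + z q) ≤ 1 := by
  have h0 := V_inner σ (m := n + q) (n := n) (n' := n + q) (by omega) le_rfl
  rw [show n + q - n = q by omega] at h0
  rw [← h0]
  have h4 : 0 ≤ ∑ L ∈ Y (n + q), (V σ (n + q) n L - V σ (n + q) (n + q) L) ^ 2 :=
    Finset.sum_nonneg (fun _ _ => sq_nonneg _)
  have h3 : ∑ L ∈ Y (n + q), (V σ (n + q) n L - V σ (n + q) (n + q) L) ^ 2 =
        ∑ L ∈ Y (n + q), V σ (n + q) n L * V σ (n + q) n L +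
        ∑ L ∈ Y (n + q), V σ (n + q) (n + q) L * V σ (n + q) (n + q) L -
        2 * ∑ L ∈ Y (n + q), V σ (n + q) n L * V σ (n + q) (n + q) L := by
      rw [Finset.mul_sum, ← Finset.sum_add_distrib, ← Finset.sum_sub_distrib]
      apply Finset.sum_congr rfl
      intro L _
      ring
  rw [h3, V_norm σ hσ (by omega), V_norm σ hσ le_rfl] at h4
  linarith

end Helper29.Yng
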