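import Pool.Agent.Helper29.Frege.Defect

/-!
The counting estimate (C): a window with polynomial ratio.
-/

namespace Helper29.Yng

open Finset

lemma sum_blocks (g : ℕ → ℝ) (M W J : ℕ) :
    ∑ j ∈ range J, ∑ i ∈ Finset.Ico (M + j * W) (M + (j + 1) * W), g i =
      ∑ i ∈ Finset.Ico M (M + J * W), g i := by
  induction J with
  | zero => simp
  | succ J ih =>
    rw [Finset.sum_range_succ, ih, Finset.sum_Ico_consecutive _ (by omega)]
    have : (J + 1) * W = J * W + W := by ring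
    omega

/-- the analytic inequality -/
lemma ineq_main {W M : ℕ} (hW : 1 ≤ W) (hM : (20 * W) ^ 8 ≤ M) :
    512 * (W : ℝ) ^ 3 * √(2 * (M : ℝ)) * (5 + 2 * Real.log (1 + √(2 * (M : ℝ)))) ≤ 2 * M := by
  set z : ℝ := √(√(√(M : ℝ))) with hz
  have hz0 : 0 ≤ z := Real.sqrt_nonneg _
  have hz2 : z ^ 2 = √(√(M : ℝ)) := Real.sq_sqrt (Real.sqrt_nonneg _)
  have hz4 : z ^ 4 = √(M : ℝ) := by
    rw [show z ^ 4 = (z ^ 2) ^ 2 by ring, hz2, Real.sq_sqrt (Real.sqrt_nonneg _)]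
  have hz8 : z ^ 8 = M := by
    rw [show z ^ 8 = (z ^ 4) ^ 2 by ring, hz4, Real.sq_sqrt (Nat.cast_nonneg _)]
  have hzW : 20 * (W : ℝ) ≤ z := by
    rw [← pow_le_pow_iff_left₀ (by positivity) hz0 (show (8 : ℕ) ≠ 0 by norm_num), hz8]
    exact_mod_cast hM
  have hW1 : (1 : ℝ) ≤ W := by exact_mod_cast hW
  have hz1 : 1 ≤ z := by linarith
  have hs2 : √(2 * (M : ℝ)) = √2 * z ^ 4 := by
    rw [Real.sqrt_mul (by norm_num), hz4]
  have h2 : √2 ≤ 71 / 50 := by
    rw [Real.sqrt_le_left (by norm_num)]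
    norm_num
  have h20 : 0 ≤ √(2:ℝ) := Real.sqrt_nonneg _
  have hlog : Real.log (1 + √(2 * (M : ℝ))) ≤ 8 * z := by
    have h3 : 1 + √(2 * (M : ℝ)) ≤ (2 * z) ^ 4 := by
      rw [hs2]
      have : 1 ≤ z ^ 4 := one_le_pow₀ hz1
      nlinarith
    have h4 : Real.log (1 + √(2 * (M : ℝ))) ≤ Real.log ((2 * z) ^ 4) :=
      Real.log_le_log (by positivity) h3
    rw [Real.log_pow] at h4
    have h5 := Real.log_le_sub_one_of_pos (show (0:ℝ) < 2 * z by linarith)
    push_cast at h4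
    linarith
  have h6 : 5 + 2 * Real.log (1 + √(2 * (M : ℝ))) ≤ 21 * z := by linarith
  have h7 : (W : ℝ) ^ 3 ≤ z ^ 3 / 8000 := by
    have : (20 * (W : ℝ)) ^ 3 ≤ z ^ 3 := by gcongr
    have h8 : (20 * (W : ℝ)) ^ 3 = 8000 * (W : ℝ) ^ 3 := by ring
    linarith
  calc 512 * (W : ℝ) ^ 3 * √(2 * (M : ℝ)) * (5 + 2 * Real.log (1 + √(2 * (M : ℝ))))
      ≤ 512 * (z ^ 3 / 8000) * (71 / 50 * z ^ 4) * (21 * z) := by
        rw [hs2]
        rw [← hs2]
        have hlog0 : 0 ≤ 5 + 2 * Real.log (1 + √(2 * (M : ℝ))) := by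
          have := Real.log_nonneg (show (1:ℝ) ≤ 1 + √(2 * (M : ℝ)) by
            have := Real.sqrt_nonneg (2 * (M : ℝ)); linarith)
          linarith
        gcongr
        rw [hs2]
        gcongr
    _ = 512 / 8000 * (71 / 50) * 21 * z ^ 8 := by ring
    _ ≤ 2 * M := by
        rw [hz8]
        have : (0 : ℝ) ≤ M := Nat.cast_nonneg _
        nlinarith

/-- existence of a good window -/
lemma exists_window {W B M : ℕ} (hB : 1 ≤ B) (hBW : B ≤ W) (hM : (20 * W) ^ 8 ≤ M) :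
    ∃ m, M ≤ m ∧ m + W ≤ 2 * M ∧
      ∑ i ∈ Finset.Ico m (m + W), √(2 * (1 - rho (1 + 1 / (4 * (B : ℝ))) i)) ≤ 1 / 4 := by
  set x : ℝ := 1 / (4 * (B : ℝ)) with hx
  set σ : ℝ := 1 + x with hσdef
  have hB1 : (1 : ℝ) ≤ B := by exact_mod_cast hB
  have hx0 : 0 < x := by positivity
  have hx1 : x ≤ 1 / 4 := by
    rw [hx, div_le_div_iff₀ (by positivity) (by norm_num)]
    linarith
  have hσ : 1 < σ := by linarith
  have hσ0 : 0 < σ := by linarith
  have hkeq : σ - σ⁻¹ = x * (2 + x) / (1 + x) := by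
    rw [hσdef]
    have : (1 + x) ≠ 0 := by positivity
    field_simp
    ring
  have hklow : x ≤ σ - σ⁻¹ := by
    rw [hkeq, le_div_iff₀ (by positivity)]
    nlinarith
  have hkup : σ - σ⁻¹ ≤ 2 * x := by
    rw [hkeq, div_le_iff₀ (by positivity)]
    nlinarith
  have hk0 : 0 < σ - σ⁻¹ := by linarith
  have hk : (σ - σ⁻¹) ^ 2 ≤ 1 / 2 := by nlinarith
  have hW : 1 ≤ W := hB.trans hBW
  have hW1 : (1 : ℝ) ≤ W := by exact_mod_cast hW
  have hWM : W ≤ M := by
    calc W ≤ 20 * W := by omega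
      _ ≤ (20 * W) ^ 8 := Nat.le_self_pow (by norm_num) _
      _ ≤ M := hM
  have hMpos : 0 < M := by omega
  have hM0 : (0 : ℝ) < M := by exact_mod_cast hMpos
  set δ : ℕ → ℝ := fun i => 1 - rho σ i with hδ
  have hδ0 : ∀ i, 0 ≤ δ i := fun i => by
    have := rho_le_one σ hσ.le i
    simp only [hδ]; linarith
  have htot := defect_total hσ hk (2 * M)
  push_cast at htot
  set Lg : ℝ := 5 + 2 * Real.log (1 + √(2 * (M : ℝ))) with hLg
  have hsM : 0 < √(2 * (M : ℝ)) := Real.sqrt_pos.2 (by positivity)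
  have hLg0 : 0 ≤ Lg := by
    have := Real.log_nonneg (show (1:ℝ) ≤ 1 + √(2 * (M : ℝ)) by linarith)
    rw [hLg]; linarith
  have hS : ∑ i ∈ Finset.Ico M (2 * M), δ i ≤ √(2 * (M : ℝ)) * (Lg * (4 * W)) := by
    have h1 : ∑ i ∈ Finset.Ico M (2 * M), δ i ≤
        √(2 * (M : ℝ)) * ∑ i ∈ Finset.Ico M (2 * M), δ i / √((i : ℝ) + 1) := by
      rw [Finset.mul_sum]
      apply Finset.sum_le_sum
      intro i hi
      rw [Finset.mem_Ico] at hi
      have h2 : 0 < √((i : ℝ) + 1) := Real.sqrt_pos.2 (by positivity)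
      have h3 : √((i : ℝ) + 1) ≤ √(2 * (M : ℝ)) := by
        apply Real.sqrt_le_sqrt
        have : i + 1 ≤ 2 * M := by omega
        exact_mod_cast this
      rw [← mul_div_assoc, le_div_iff₀ h2, mul_comm]
      exact mul_le_mul_of_nonneg_right h3 (hδ0 i)
    have h2 : ∑ i ∈ Finset.Ico M (2 * M), δ i / √((i : ℝ) + 1) ≤
        ∑ i ∈ range (2 * M), δ i / √((i : ℝ) + 1) := by
      apply Finset.sum_le_sum_of_subset_of_nonneg
      · intro i hi
        rw [Finset.mem_Ico] at hi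
        exact Finset.mem_range.2 hi.2
      · intro i _ _
        exact div_nonneg (hδ0 i) (Real.sqrt_nonneg _)
    have h3 : (5 + 2 * Real.log (1 + (σ - σ⁻¹) * √(2 * (M : ℝ)))) / (σ - σ⁻¹) ≤ Lg * (4 * W) := by
      have h4 : 5 + 2 * Real.log (1 + (σ - σ⁻¹) * √(2 * (M : ℝ))) ≤ Lg := by
        rw [hLg]
        have : Real.log (1 + (σ - σ⁻¹) * √(2 * (M : ℝ))) ≤ Real.log (1 + √(2 * (M : ℝ))) := by
          apply Real.log_le_log (by positivity)
          have : (σ - σ⁻¹) * √(2 * (M : ℝ)) ≤ 1 * √(2 * (M : ℝ)) := by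
            gcongr
            linarith
          linarith
        linarith
      calc (5 + 2 * Real.log (1 + (σ - σ⁻¹) * √(2 * (M : ℝ)))) / (σ - σ⁻¹)
          ≤ Lg / x := by gcongr
        _ = Lg * (4 * B) := by rw [hx]; field_simp
        _ ≤ Lg * (4 * W) := by
          have : (B : ℝ) ≤ W := by exact_mod_cast hBW
          gcongr
    calc _ ≤ _ := h1
      _ ≤ √(2 * (M : ℝ)) * (Lg * (4 * W)) := by
        gcongr
        exact h2.trans (htot.trans h3)
  set J := M / W with hJ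
  have hJ1 : 1 ≤ J := by
    rw [hJ, Nat.one_le_div_iff (by omega)]
    exact hWM
  have hJW : J * W ≤ M := Nat.div_mul_le_self M W
  have hJlow : (M : ℝ) ≤ 2 * J * W := by
    have h1 : M < (J + 1) * W := by
      rw [hJ]
      exact (Nat.div_lt_iff_lt_mul (by omega)).1 (Nat.lt_succ_self _)
    have h2 : (J + 1) * W ≤ 2 * J * W := by
      apply Nat.mul_le_mul_right; omega
    have : M ≤ 2 * J * W := by omega
    exact_mod_cast this
  have hJ0 : (0 : ℝ) < J := by exact_mod_cast hJ1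
  obtain ⟨j, hj, hjle⟩ : ∃ j ∈ range J,
      ∑ i ∈ Finset.Ico (M + j * W) (M + (j + 1) * W), δ i ≤ √(2 * (M : ℝ)) * (Lg * (4 * W)) / J := by
    apply Finset.exists_le_of_sum_le (by simpa using (by omega : J ≠ 0))
    rw [sum_blocks]
    rw [Finset.sum_const, Finset.card_range, nsmul_eq_mul, mul_div_cancel₀ _ hJ0.ne']
    refine le_trans ?_ hS
    apply Finset.sum_le_sum_of_subset_of_nonneg
    · intro i hi
      rw [Finset.mem_Ico] at hi ⊢
      omega
    · intro i _ _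
      exact hδ0 i
  rw [Finset.mem_range] at hj
  have hjW : (j + 1) * W ≤ M := by
    calc (j + 1) * W ≤ J * W := Nat.mul_le_mul_right _ (by omega)
      _ ≤ M := hJW
  have hjs : (j + 1) * W = j * W + W := by ring
  refine ⟨M + j * W, by omega, by omega, ?_⟩
  have e1 : M + (j + 1) * W = M + j * W + W := by omega
  rw [e1] at hjle
  have hcs := sq_sum_le_card_mul_sum_sq (s := Finset.Ico (M + j * W) (M + j * W + W))
    (f := fun i => √(2 * δ i))
  have h1 : ∑ i ∈ Finset.Ico (M + j * W) (M + j * W + W), √(2 * δ i) ^ 2 =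
      2 * ∑ i ∈ Finset.Ico (M + j * W) (M + j * W + W), δ i := by
    rw [Finset.mul_sum]
    apply Finset.sum_congr rfl
    intro i _
    exact Real.sq_sqrt (by have := hδ0 i; linarith)
  have h2 : ((Finset.Ico (M + j * W) (M + j * W + W)).card : ℝ) = W := by
    simp
  rw [h1, h2] at hcs
  have h3 : (W : ℝ) * (2 * ∑ i ∈ Finset.Ico (M + j * W) (M + j * W + W), δ i) ≤ 1 / 16 := by
    have h4 := ineq_main hW hM
    rw [← hLg] at h4
    have h5 : √(2 * (M : ℝ)) * (Lg * (4 * W)) / J ≤ √(2 * (M : ℝ)) * (Lg * (4 * W)) * (2 * W) / M := by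
      rw [div_le_div_iff₀ hJ0 hM0]
      have h6 : 0 ≤ √(2 * (M : ℝ)) * (Lg * (4 * W)) := by positivity
      calc √(2 * (M : ℝ)) * (Lg * (4 * W)) * M ≤ √(2 * (M : ℝ)) * (Lg * (4 * W)) * (2 * J * W) := by gcongr
        _ = _ := by ring
    have h7 : (W : ℝ) * (2 * (√(2 * (M : ℝ)) * (Lg * (4 * W)) * (2 * W) / M)) ≤ 1 / 16 := by
      have e2 : (W : ℝ) * (2 * (√(2 * (M : ℝ)) * (Lg * (4 * W)) * (2 * W) / M)) =
          16 * (W : ℝ) ^ 3 * √(2 * (M : ℝ)) * Lg / M := by ring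
      rw [e2, div_le_iff₀ hM0]
      have e3 : 512 * (W : ℝ) ^ 3 * √(2 * (M : ℝ)) * Lg = 32 * (16 * (W : ℝ) ^ 3 * √(2 * (M : ℝ)) * Lg) := by
        ring
      rw [e3] at h4
      linarith
    calc _ ≤ (W : ℝ) * (2 * (√(2 * (M : ℝ)) * (Lg * (4 * W)) * (2 * W) / M)) := by
          gcongr
          exact hjle.trans h5
      _ ≤ _ := h7
  apply le_of_sq_le_sq' (by norm_num)
  calc _ ≤ _ := hcs
    _ ≤ 1 / 16 := h3
    _ = (1 / 4) ^ 2 := by norm_num

/-- **The counting estimate (C)**. -/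
theorem window_count (n0 q B M : ℕ) (hB : 1 ≤ B) (hM : (20 * (n0 + q + B)) ^ 8 ≤ M) :
    ∃ n, M ≤ n ∧ n + q + B ≤ 2 * M ∧ ∃ t, n0 ≤ t ∧ t ≤ n ∧
      ∑ l ∈ (Y n).filter (fun l => t ≤ l 0 + B), f l * f (l + z q) ≤
        4 * (n + 1) * ∑ l ∈ (Y n).filter (fun l => l 0 = t ∧ l 1 + n0 ≤ l 0), f l * f (l + z q) := by
  classical
  obtain ⟨m, hm1, hm2, hm3⟩ := exists_window hB (show B ≤ n0 + q + B by omega) hM
  set σ : ℝ := 1 + 1 / (4 * (B : ℝ)) with hσdef
  have hB1 : (1 : ℝ) ≤ B := by exact_mod_cast hB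
  have hσ : 1 ≤ σ := by
    have : 0 < 1 / (4 * (B : ℝ)) := by positivity
    linarith
  set n := m + n0 with hn
  refine ⟨n, by omega, by omega, ?_⟩
  have hgap := gap_lower σ hσ n n0 q (by omega) (by
    refine le_trans ?_ hm3
    apply Finset.sum_le_sum_of_subset_of_nonneg
    · intro i hi
      rw [Finset.mem_Ico] at hi ⊢
      omega
    · intro i _ _
      exact Real.sqrt_nonneg _)
  have htot := total_upper σ hσ n q
  -- weights
  set w : (ℕ →₀ ℕ) → ℝ := fun l => (f l * f (l + z q) : ℕ) * (σ ^ 2) ^ (l 0) with hw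
  set c0 : ℝ := σ ^ q / (√(F (σ ^ 2) n) * √(F (σ ^ 2) (n + q))) with hc0
  have hF1 : 0 < F (σ ^ 2) n := F_pos (by nlinarith) n
  have hF2 : 0 < F (σ ^ 2) (n + q) := F_pos (by nlinarith) (n + q)
  have hσ0 : 0 < σ := by linarith
  have hc0pos : 0 < c0 :=
    div_pos (pow_pos hσ0 q) (mul_pos (Real.sqrt_pos.2 hF1) (Real.sqrt_pos.2 hF2))
  have hvw : ∀ l, v σ n l * v σ (n + q) (l + z q) = c0 * w l := by
    intro l
    simp only [hw, hc0]
    unfold v
    rw [add_s_apply, if_pos rfl, div_mul_div_comm]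
    push_cast
    rw [pow_add, ← pow_mul, mul_comm 2, pow_mul]
    ring
  have hw0 : ∀ l, 0 ≤ w l := fun l => by
    simp only [hw]; positivity
  have htot' : c0 * ∑ l ∈ Y n, w l ≤ 1 := by
    rw [Finset.mul_sum, ← Finset.sum_congr rfl (fun l _ => hvw l)]
    exact htot
  have hgap' : 1 / 2 ≤ c0 * ∑ l ∈ (Y n).filter (fun l => l 1 + n0 ≤ l 0), w l := by
    rw [Finset.sum_filter, Finset.mul_sum]
    refine hgap.trans (le_of_eq ?_)
    apply Finset.sum_congr rfl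
    intro l _
    rw [hvw]
    by_cases h : n0 + l 1 ≤ l 0
    · rw [if_pos h, if_pos (by omega)]
    · rw [if_neg h, if_neg (by omega), mul_zero]
  -- pigeonhole on the first row
  have hfib : ∑ l ∈ (Y n).filter (fun l => l 1 + n0 ≤ l 0), w l =
      ∑ t ∈ range (n + 1), ∑ l ∈ (Y n).filter (fun l => l 0 = t ∧ l 1 + n0 ≤ l 0), w l := by
    rw [← Finset.sum_fiberwise_of_maps_to (s := (Y n).filter (fun l => l 1 + n0 ≤ l 0))
      (t := range (n + 1)) (g := fun l => l 0)]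
    · apply Finset.sum_congr rfl
      intro t _
      apply Finset.sum_congr _ (fun _ _ => rfl)
      ext l
      simp only [Finset.mem_filter]
      tauto
    · intro l hl
      rw [Finset.mem_filter, mem_Y] at hl
      rw [Finset.mem_range]
      have := le_sz l 0
      omega
  obtain ⟨t, _, ht⟩ : ∃ t ∈ range (n + 1), 1 / (2 * ((n : ℝ) + 1)) ≤
      c0 * ∑ l ∈ (Y n).filter (fun l => l 0 = t ∧ l 1 + n0 ≤ l 0), w l := by
    apply Finset.exists_le_of_sum_le (by simp)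
    rw [Finset.sum_const, Finset.card_range, ← Finset.mul_sum, ← hfib, nsmul_eq_mul]
    refine le_trans (le_of_eq ?_) hgap'
    have : ((n : ℝ) + 1) ≠ 0 := by positivity
    push_cast
    field_simp
  have htn : n0 ≤ t ∧ t ≤ n := by
    have hne : (∑ l ∈ (Y n).filter (fun l => l 0 = t ∧ l 1 + n0 ≤ l 0), w l) ≠ 0 := by
      intro h0
      rw [h0, mul_zero] at ht
      have : (0 : ℝ) < 1 / (2 * ((n : ℝ) + 1)) := by positivity
      linarith
    obtain ⟨l, hl, _⟩ := Finset.exists_ne_zero_of_sum_ne_zero hne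
    rw [Finset.mem_filter, mem_Y] at hl
    have h1 := le_sz l 0
    omega
  refine ⟨t, htn.1, htn.2, ?_⟩
  have hlow : ∑ l ∈ (Y n).filter (fun l => l 0 = t ∧ l 1 + n0 ≤ l 0), w l =
      (σ ^ 2) ^ t * ((∑ l ∈ (Y n).filter (fun l => l 0 = t ∧ l 1 + n0 ≤ l 0), f l * f (l + z q) : ℕ) : ℝ) := by
    push_cast
    rw [Finset.mul_sum]
    apply Finset.sum_congr rfl
    intro l hl
    rw [Finset.mem_filter] at hl
    simp only [hw]
    rw [hl.2.1]
    push_cast
    ring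
  have hhigh : (σ ^ 2) ^ t * ((∑ l ∈ (Y n).filter (fun l => t ≤ l 0 + B), f l * f (l + z q) : ℕ) : ℝ) ≤
      (σ ^ 2) ^ B * ∑ l ∈ Y n, w l := by
    push_cast
    rw [Finset.mul_sum, Finset.mul_sum]
    refine le_trans ?_ (Finset.sum_le_sum_of_subset_of_nonneg (Finset.filter_subset (fun l => t ≤ l 0 + B) (Y n)) ?_)
    · apply Finset.sum_le_sum
      intro l hl
      rw [Finset.mem_filter] at hl
      simp only [hw]
      have h1 : (σ ^ 2) ^ t ≤ (σ ^ 2) ^ B * (σ ^ 2) ^ (l 0) := by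
        rw [← pow_add]
        apply pow_le_pow_right₀ (by nlinarith)
        omega
      have h2 : (0 : ℝ) ≤ (f l : ℝ) * f (l + z q) := by positivity
      push_cast
      nlinarith
    · intro l _ _
      exact mul_nonneg (pow_nonneg (sq_nonneg σ) B) (hw0 l)
  have hσB : (σ ^ 2) ^ B ≤ 2 := by
    have h1 : σ ≤ Real.exp (1 / (4 * (B : ℝ))) := by
      have := Real.add_one_le_exp (1 / (4 * (B : ℝ)))
      rw [hσdef]; linarith
    calc (σ ^ 2) ^ B ≤ (Real.exp (1 / (4 * (B : ℝ))) ^ 2) ^ B := by gcongr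
      _ = Real.exp (1 / 2) := by
        rw [← pow_mul, ← Real.exp_nat_mul]
        congr 1
        push_cast
        field_simp
        norm_num
      _ ≤ 2 := by
        have h2 : Real.exp (1 / 2) ^ 2 = Real.exp 1 := by
          rw [← Real.exp_nat_mul]; norm_num
        have h3 := Real.exp_one_lt_d9
        have h4 := Real.exp_pos (1 / 2)
        nlinarith
  set Dh : ℝ := ((∑ l ∈ (Y n).filter (fun l => t ≤ l 0 + B), f l * f (l + z q) : ℕ) : ℝ) with hDh
  set Dl : ℝ := ((∑ l ∈ (Y n).filter (fun l => l 0 = t ∧ l 1 + n0 ≤ l 0), f l * f (l + z q) : ℕ) : ℝ) with hDl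
  have hfin : Dh ≤ 4 * ((n : ℝ) + 1) * Dl := by
    rw [hlow] at ht
    set P := (σ ^ 2) ^ t with hP
    have hP0 : 0 < P := pow_pos (pow_pos hσ0 2) t
    set Z := ∑ l ∈ Y n, w l with hZ
    have hZ0 : 0 ≤ Z := Finset.sum_nonneg (fun l _ => hw0 l)
    have h1 : P * Dh ≤ 2 * Z := hhigh.trans (mul_le_mul_of_nonneg_right hσB hZ0)
    have h2 : c0 * (P * Dh) ≤ 2 := by
      have h21 : c0 * (P * Dh) ≤ c0 * (2 * Z) := mul_le_mul_of_nonneg_left h1 hc0pos.le
      have h22 : c0 * (2 * Z) = 2 * (c0 * Z) := by ring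
      linarith
    have hn1 : (0 : ℝ) < (n : ℝ) + 1 := Nat.cast_add_one_pos n
    have h3 : 2 ≤ 4 * ((n : ℝ) + 1) * (c0 * (P * Dl)) := by
      rw [div_le_iff₀ (by linarith)] at ht
      linarith
    have h4 : (c0 * P) * Dh ≤ (c0 * P) * (4 * ((n : ℝ) + 1) * Dl) := by
      calc (c0 * P) * Dh = c0 * (P * Dh) := by ring
        _ ≤ 2 := h2
        _ ≤ _ := h3
        _ = _ := by ring
    exact le_of_mul_le_mul_left h4 (mul_pos hc0pos hP0)
  have : ((∑ l ∈ (Y n).filter (fun l => t ≤ l 0 + B), f l * f (l + z q) : ℕ) : ℝ) ≤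
      ((4 * (n + 1) * ∑ l ∈ (Y n).filter (fun l => l 0 = t ∧ l 1 + n0 ≤ l 0), f l * f (l + z q) : ℕ) : ℝ) := by
    rw [← hDh]
    push_cast
    push_cast at hDl
    rw [← hDl]
    exact hfin
  exact_mod_cast this

theorem window_C : ∃ C : ℕ, 0 < C ∧ ∀ n0 q B N : ℕ, 1 ≤ B → B ≤ n0 → 1 ≤ q →
    C * (n0 + q + B) ^ 8 ≤ N → ∃ n t : ℕ, N ≤ 2 * n ∧ n ≤ N ∧ n0 ≤ t ∧ t ≤ n ∧
      ∑ l ∈ (Y n).filter (fun l => t ≤ l 0 + B), f l * f (l + Finsupp.single 0 q) ≤
        6 * n * ∑ l ∈ (Y n).filter (fun l => l 0 = t ∧ l 1 + n0 ≤ l 0), f l * f (l + Finsupp.single 0 q) := by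
  refine ⟨2 * 20 ^ 8, by norm_num, ?_⟩
  intro n0 q B N hB hBn hq hN
  set M := (N + 1) / 2 with hM
  have h1 : (20 * (n0 + q + B)) ^ 8 ≤ M := by
    rw [mul_pow]
    have : 2 * (20 ^ 8 * (n0 + q + B) ^ 8) ≤ N := by
      calc _ = 2 * 20 ^ 8 * (n0 + q + B) ^ 8 := by ring
        _ ≤ N := hN
    omega
  obtain ⟨n, hn1, hn2, t, ht1, ht2, hle⟩ := window_count n0 q B M hB h1
  have hM2 : 2 ≤ M := by
    calc 2 ≤ (20 * (n0 + q + B)) ^ 8 := by
          calc 2 ≤ 20 * (n0 + q + B) := by omega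
            _ ≤ _ := Nat.le_self_pow (by norm_num) _
      _ ≤ M := h1
  refine ⟨n, t, by omega, by omega, ht1, ht2, hle.trans ?_⟩
  apply Nat.mul_le_mul_right
  omega

end Helper29.Yng
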