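import Mathlib

/-!
Young lattice: partitions as antitone finitely supported functions, number of standard tableaux `f`,
branching rules, contents.
-/

namespace Helper29.Yng

open Finset

/-- `l` is a partition (row lengths, rows indexed from `0`). -/
def Prt (l : ℕ →₀ ℕ) : Prop := ∀ i, l (i + 1) ≤ l i

/-- Size of a partition. -/
noncomputable abbrev sz (l : ℕ →₀ ℕ) : ℕ := l.degree

/-- unit vector -/
noncomputable abbrev e (i : ℕ) : ℕ →₀ ℕ := Finsupp.single i 1

lemma sz_add (l m : ℕ →₀ ℕ) : sz (l + m) = sz l + sz m := by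
  simp [sz]

lemma sz_e (i : ℕ) : sz (e i) = 1 := by
  simp [sz, e, Finsupp.degree_single]

lemma sz_add_e (l : ℕ →₀ ℕ) (i : ℕ) : sz (l + e i) = sz l + 1 := by
  rw [sz_add, sz_e]

lemma sz_eq_sum (l : ℕ →₀ ℕ) {K : ℕ} (h : l.support ⊆ range K) : sz l = ∑ i ∈ range K, l i := by
  rw [sz, Finsupp.degree_apply]
  exact Finset.sum_subset h (fun x _ hx => by simpa using hx)

lemma Prt.anti {l : ℕ →₀ ℕ} (h : Prt l) : ∀ {i j : ℕ}, i ≤ j → l j ≤ l i := by
  intro i j hij
  induction hij with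
  | refl => exact le_rfl
  | step _ ih => exact (h _).trans ih

lemma le_sz (l : ℕ →₀ ℕ) (i : ℕ) : l i ≤ sz l := by
  rw [sz, Finsupp.degree_apply]
  by_cases hi : i ∈ l.support
  · exact Finset.single_le_sum (f := fun i => l i) (fun _ _ => Nat.zero_le _) hi
  · have : l i = 0 := by simpa using hi
    omega

lemma Prt.zero_of_ge {l : ℕ →₀ ℕ} (h : Prt l) {i : ℕ} (hi : sz l ≤ i) : l i = 0 := by
  by_contra hne
  have h1 : ∀ j ∈ range (i + 1), 1 ≤ l j := by
    intro j hj
    have : l i ≤ l j := h.anti (by simpa [Nat.lt_succ_iff] using hj)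
    omega
  have h2 : range (i + 1) ⊆ l.support := by
    intro j hj
    have := h1 j hj
    simp
    omega
  have h3 : ∑ j ∈ range (i + 1), l j ≤ sz l := by
    rw [sz, Finsupp.degree_apply]
    exact Finset.sum_le_sum_of_subset h2
  have h4 : (range (i + 1)).card ≤ ∑ j ∈ range (i + 1), l j := by
    calc (range (i + 1)).card = ∑ j ∈ range (i + 1), 1 := by simp
      _ ≤ _ := Finset.sum_le_sum h1
  simp at h4
  omega

lemma Prt.support_subset {l : ℕ →₀ ℕ} (h : Prt l) {K : ℕ} (hK : sz l ≤ K) : l.support ⊆ range K := by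
  intro i hi
  by_contra hne
  have : l i = 0 := h.zero_of_ge (hK.trans (by simpa using hne))
  simp at hi
  exact hi this

open Classical in
/-- The finset of partitions of `n`. -/
noncomputable def Y (n : ℕ) : Finset (ℕ →₀ ℕ) :=
  ((range n).finsuppAntidiag n).filter (fun l => Prt l)

lemma mem_Y {n : ℕ} {l : ℕ →₀ ℕ} : l ∈ Y n ↔ Prt l ∧ sz l = n := by
  classical
  unfold Y
  rw [Finset.mem_filter, Finset.mem_finsuppAntidiag]
  constructor
  · rintro ⟨⟨h1, h2⟩, h3⟩
    exact ⟨h3, by rw [sz_eq_sum l h2, h1]⟩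
  · rintro ⟨h1, h2⟩
    have h3 := h1.support_subset (K := n) h2.le
    exact ⟨⟨by rw [← sz_eq_sum l h3, h2], h3⟩, h1⟩

open Classical in
/-- Rows where a box can be added. -/
noncomputable def A (l : ℕ →₀ ℕ) : Finset ℕ :=
  (range (sz l + 1)).filter (fun i => i = 0 ∨ l i < l (i - 1))

open Classical in
/-- Rows where a box can be removed. -/
noncomputable def R (l : ℕ →₀ ℕ) : Finset ℕ :=
  (range (sz l)).filter (fun i => l (i + 1) < l i)

lemma mem_A {l : ℕ →₀ ℕ} (hl : Prt l) {i : ℕ} : i ∈ A l ↔ (i = 0 ∨ l i < l (i - 1)) := by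
  classical
  unfold A
  rw [Finset.mem_filter, Finset.mem_range]
  constructor
  · exact fun h => h.2
  · intro h
    refine ⟨?_, h⟩
    rcases h with h | h
    · omega
    · by_contra hc
      have : l (i - 1) = 0 := hl.zero_of_ge (by omega)
      omega

lemma mem_R {l : ℕ →₀ ℕ} (hl : Prt l) {i : ℕ} : i ∈ R l ↔ l (i + 1) < l i := by
  classical
  unfold R
  rw [Finset.mem_filter, Finset.mem_range]
  constructor
  · exact fun h => h.2
  · intro h
    refine ⟨?_, h⟩
    by_contra hc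
    have : l i = 0 := hl.zero_of_ge (by omega)
    omega

lemma e_apply (i j : ℕ) : e i j = if i = j then 1 else 0 := by
  simp [e, Finsupp.single_apply]

lemma add_e_apply (l : ℕ →₀ ℕ) (i j : ℕ) : (l + e i) j = l j + if i = j then 1 else 0 := by
  simp [e_apply]

lemma sub_e_apply (l : ℕ →₀ ℕ) (i j : ℕ) : (l - e i) j = l j - if i = j then 1 else 0 := by
  rw [Finsupp.tsub_apply, e_apply]

lemma add_sub_e (l : ℕ →₀ ℕ) (i : ℕ) : l + e i - e i = l := by
  ext j
  rw [sub_e_apply, add_e_apply]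
  split <;> omega

lemma sub_add_e {l : ℕ →₀ ℕ} {i : ℕ} (h : 1 ≤ l i) : l - e i + e i = l := by
  ext j
  rw [add_e_apply, sub_e_apply]
  split
  · subst_vars; omega
  · omega

lemma Prt.up {l : ℕ →₀ ℕ} (hl : Prt l) {i : ℕ} (hi : i ∈ A l) : Prt (l + e i) := by
  rw [mem_A hl] at hi
  intro j
  rw [add_e_apply, add_e_apply]
  have h1 := hl j
  rcases Nat.lt_trichotomy i (j + 1) with h | h | h
  · split <;> split <;> omega
  · subst h
    have : l (j + 1) < l j := by
      rcases hi with hi | hi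
      · omega
      · simpa using hi
    split <;> split <;> omega
  · split <;> split <;> omega

lemma Prt.down {l : ℕ →₀ ℕ} (hl : Prt l) {i : ℕ} (hi : i ∈ R l) : Prt (l - e i) := by
  rw [mem_R hl] at hi
  intro j
  rw [sub_e_apply, sub_e_apply]
  have h1 := hl j
  rcases eq_or_ne i j with h | h
  · subst h
    split_ifs <;> omega
  · simp only [h, if_false]
    split_ifs <;> omega

lemma one_le_of_R {l : ℕ →₀ ℕ} (hl : Prt l) {i : ℕ} (hi : i ∈ R l) : 1 ≤ l i := by
  rw [mem_R hl] at hi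
  omega

lemma sz_down {l : ℕ →₀ ℕ} (hl : Prt l) {i : ℕ} (hi : i ∈ R l) : sz (l - e i) + 1 = sz l := by
  rw [← sz_add_e, sub_add_e (one_le_of_R hl hi)]

lemma R_up {l : ℕ →₀ ℕ} (hl : Prt l) {i : ℕ} (hi : i ∈ A l) : i ∈ R (l + e i) := by
  rw [mem_R (hl.up hi), add_e_apply, add_e_apply]
  have := hl i
  simp
  omega

lemma A_down {l : ℕ →₀ ℕ} (hl : Prt l) {i : ℕ} (hi : i ∈ R l) : i ∈ A (l - e i) := by
  rw [mem_A (hl.down hi), sub_e_apply, sub_e_apply]
  rcases Nat.eq_zero_or_pos i with h | h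
  · exact Or.inl h
  · right
    have h1 := one_le_of_R hl hi
    have h2 := hl.anti (show i - 1 ≤ i by omega)
    have h3 : i ≠ i - 1 := by omega
    simp [h3]
    omega

/-- Removing after adding and adding after removing are the same for different rows. -/
lemma swap_iff {l : ℕ →₀ ℕ} (hl : Prt l) {i j : ℕ} (hij : i ≠ j) :
    (i ∈ A l ∧ j ∈ R (l + e i)) ↔ (j ∈ R l ∧ i ∈ A (l - e j)) := by
  constructor
  · rintro ⟨h1, h2⟩
    have h2' := (mem_R (hl.up h1)).1 h2
    rw [add_e_apply, add_e_apply] at h2'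
    have h1' := (mem_A hl).1 h1
    have h3 : j ∈ R l := by
      rw [mem_R hl]
      simp only [hij, if_false] at h2'
      omega
    refine ⟨h3, ?_⟩
    rw [mem_A (hl.down h3), sub_e_apply, sub_e_apply]
    rcases h1' with h | h
    · exact Or.inl h
    · right
      rcases Nat.eq_zero_or_pos i with h0 | h0
      · subst h0; simp at h
      · by_cases hj : j = i - 1
        · subst hj
          have h4 : i - 1 + 1 = i := by omega
          rw [h4] at h2'
          have h5 : i ≠ i - 1 := by omega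
          have h6 : i - 1 ≠ i := by omega
          simp [h5, h6] at h2' ⊢
          omega
        · have h6 : j ≠ i := Ne.symm hij
          simp [hj, h6]
          omega
  · rintro ⟨h1, h2⟩
    have h1' := (mem_R hl).1 h1
    have h2' := (mem_A (hl.down h1)).1 h2
    rw [sub_e_apply, sub_e_apply] at h2'
    have h3 : i ∈ A l := by
      rw [mem_A hl]
      rcases h2' with h | h
      · exact Or.inl h
      · right
        have h6 : j ≠ i := Ne.symm hij
        simp only [h6, if_false] at h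
        omega
    refine ⟨h3, ?_⟩
    rw [mem_R (hl.up h3), add_e_apply, add_e_apply]
    have h6 : j ≠ i := Ne.symm hij
    by_cases hj : i = j + 1
    · subst hj
      simp only [Nat.add_sub_cancel] at h2'
      simp
      rcases h2' with h | h
      · omega
      · simp at h
        omega
    · simp [hij, hj]
      exact h1'

lemma add_sub_comm_e {l : ℕ →₀ ℕ} {i j : ℕ} (hij : i ≠ j) : l + e i - e j = l - e j + e i := by
  ext k
  rw [sub_e_apply, add_e_apply, add_e_apply, sub_e_apply]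
  split_ifs <;> omega

/-- Content of the box added in row `i`. -/
def c (l : ℕ →₀ ℕ) (i : ℕ) : ℤ := (l i : ℤ) - i

lemma c_sub_ne {l : ℕ →₀ ℕ} {i j : ℕ} (hij : i ≠ j) : c (l - e j) i = c l i := by
  unfold c
  rw [sub_e_apply]
  simp [Ne.symm hij]

lemma c_sub_self {l : ℕ →₀ ℕ} {i : ℕ} (h : 1 ≤ l i) : c (l - e i) i = c l i - 1 := by
  unfold c
  rw [sub_e_apply]
  simp
  omega

/-- The weighted corner sum. -/
noncomputable def T (s : ℝ) (l : ℕ →₀ ℕ) : ℝ :=
  ∑ i ∈ A l, s ^ (c l i) - ∑ j ∈ R l, s ^ (c l j - 1)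

lemma T_eq (s : ℝ) {l : ℕ →₀ ℕ} (hl : Prt l) {K : ℕ} (hK : sz l ≤ K) :
    T s l = ∑ i ∈ range (K + 1), s ^ (c l i) - ∑ j ∈ range K, s ^ (c l j - 1) := by
  classical
  have hA : ∑ i ∈ A l, s ^ (c l i) =
      ∑ i ∈ range (K + 1), if (i = 0 ∨ l i < l (i - 1)) then s ^ (c l i) else 0 := by
    rw [← Finset.sum_filter]
    apply Finset.sum_congr _ (fun _ _ => rfl)
    ext i
    rw [mem_A hl, Finset.mem_filter, Finset.mem_range]
    constructor
    · intro h
      refine ⟨?_, h⟩
      have := (mem_A hl).2 h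
      unfold A at this
      rw [Finset.mem_filter, Finset.mem_range] at this
      omega
    · exact fun h => h.2
  have hR : ∑ j ∈ R l, s ^ (c l j - 1) =
      ∑ j ∈ range K, if l (j + 1) < l j then s ^ (c l j - 1) else 0 := by
    rw [← Finset.sum_filter]
    apply Finset.sum_congr _ (fun _ _ => rfl)
    ext i
    rw [mem_R hl, Finset.mem_filter, Finset.mem_range]
    constructor
    · intro h
      refine ⟨?_, h⟩
      have := (mem_R hl).2 h
      unfold R at this
      rw [Finset.mem_filter, Finset.mem_range] at this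
      omega
    · exact fun h => h.2
  unfold T
  rw [hA, hR, Finset.sum_range_succ', Finset.sum_range_succ']
  simp only [Nat.add_sub_cancel, Nat.add_eq_zero_iff, one_ne_zero, and_false, false_or]
  have key : ∑ k ∈ range K, (if l (k + 1) < l k then s ^ c l (k + 1) else 0) -
      ∑ j ∈ range K, (if l (j + 1) < l j then s ^ (c l j - 1) else 0) =
      ∑ k ∈ range K, s ^ c l (k + 1) - ∑ j ∈ range K, s ^ (c l j - 1) := by
    rw [← Finset.sum_sub_distrib, ← Finset.sum_sub_distrib]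
    apply Finset.sum_congr rfl
    intro j _
    split_ifs with h
    · rfl
    · have h1 : l (j + 1) = l j := le_antisymm (hl j) (not_lt.1 h)
      have h2 : c l (j + 1) = c l j - 1 := by
        unfold c; rw [h1]; push_cast; ring
      rw [h2]; ring
  have : (if (0 = 0 ∨ l 0 < l (0 - 1)) then s ^ c l 0 else 0) = s ^ c l 0 := by simp
  simp only [true_or, if_true]
  linarith

lemma T_zero (s : ℝ) : T s 0 = 1 := by
  have h : Prt 0 := fun i => le_rfl
  rw [T_eq s h (K := 0) (by simp [sz])]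
  simp [c]

lemma T_up {s : ℝ} (hs : s ≠ 0) {l : ℕ →₀ ℕ} (hl : Prt l) {k : ℕ} (hk : k ∈ A l) :
    T s (l + e k) = T s l + (s - 2 + s⁻¹) * s ^ (c l k) := by
  classical
  have hk' : k < sz l + 1 := by
    unfold A at hk
    rw [Finset.mem_filter, Finset.mem_range] at hk
    exact hk.1
  have h1 := T_eq s (hl.up hk) (K := sz l + 1) (by rw [sz_add_e])
  have h2 := T_eq s hl (K := sz l + 1) (by omega)
  rw [h1, h2]
  have hc : ∀ i, c (l + e k) i = c l i + if k = i then 1 else 0 := by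
    intro i
    unfold c
    rw [add_e_apply]
    push_cast
    split_ifs <;> ring
  have e1 : ∑ i ∈ range (sz l + 1 + 1), s ^ (c (l + e k) i) - ∑ i ∈ range (sz l + 1 + 1), s ^ (c l i) =
      s ^ (c l k + 1) - s ^ (c l k) := by
    rw [← Finset.sum_sub_distrib, Finset.sum_eq_single k]
    · rw [hc]; simp
    · intro i _ hi
      rw [hc]; simp [Ne.symm hi]
    · intro h; exact absurd (Finset.mem_range.2 (by omega)) h
  have e2 : ∑ i ∈ range (sz l + 1), s ^ (c (l + e k) i - 1) - ∑ i ∈ range (sz l + 1), s ^ (c l i - 1) =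
      s ^ (c l k) - s ^ (c l k - 1) := by
    rw [← Finset.sum_sub_distrib, Finset.sum_eq_single k]
    · rw [hc]; simp
    · intro i _ hi
      rw [hc]; simp [Ne.symm hi]
    · intro h; exact absurd (Finset.mem_range.2 (by omega)) h
  have e3 : s ^ (c l k + 1) = s ^ (c l k) * s := zpow_add_one₀ hs _
  have e4 : s ^ (c l k - 1) = s ^ (c l k) * s⁻¹ := zpow_sub_one₀ hs _
  rw [e3] at e1
  rw [e4] at e2
  linear_combination e1 - e2

/-- Weighted commutation of adding and removing. -/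
lemma swap_sum (s : ℝ) {l : ℕ →₀ ℕ} (hl : Prt l) (g : (ℕ →₀ ℕ) → ℝ) :
    ∑ i ∈ A l, s ^ (c l i) * ∑ j ∈ R (l + e i), g (l + e i - e j) =
      T s l * g l + ∑ j ∈ R l, ∑ i ∈ A (l - e j), s ^ (c (l - e j) i) * g (l - e j + e i) := by
  classical
  have h1 : ∀ i ∈ A l, s ^ (c l i) * ∑ j ∈ R (l + e i), g (l + e i - e j) =
      s ^ (c l i) * g l + ∑ j ∈ (R (l + e i)).erase i, s ^ (c l i) * g (l + e i - e j) := by
    intro i hi
    rw [← Finset.add_sum_erase _ _ (R_up hl hi), add_sub_e, mul_add, Finset.mul_sum]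
  have h2 : ∀ j ∈ R l, ∑ i ∈ A (l - e j), s ^ (c (l - e j) i) * g (l - e j + e i) =
      s ^ (c l j - 1) * g l + ∑ i ∈ (A (l - e j)).erase j, s ^ (c l i) * g (l + e i - e j) := by
    intro j hj
    rw [← Finset.add_sum_erase _ _ (A_down hl hj), sub_add_e (one_le_of_R hl hj),
      c_sub_self (one_le_of_R hl hj)]
    congr 1
    apply Finset.sum_congr rfl
    intro i hi
    have hne : i ≠ j := (Finset.mem_erase.1 hi).1
    rw [c_sub_ne hne, add_sub_comm_e hne]
  rw [Finset.sum_congr rfl h1, Finset.sum_congr rfl h2, Finset.sum_add_distrib,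
    Finset.sum_add_distrib]
  have h3 : ∑ i ∈ A l, ∑ j ∈ (R (l + e i)).erase i, s ^ (c l i) * g (l + e i - e j) =
      ∑ j ∈ R l, ∑ i ∈ (A (l - e j)).erase j, s ^ (c l i) * g (l + e i - e j) := by
    apply Finset.sum_comm'
    intro i j
    rw [Finset.mem_erase, Finset.mem_erase]
    constructor
    · rintro ⟨h4, h5, h6⟩
      have := (swap_iff hl (Ne.symm h5)).1 ⟨h4, h6⟩
      exact ⟨⟨Ne.symm h5, this.2⟩, this.1⟩
    · rintro ⟨⟨h4, h5⟩, h6⟩
      have := (swap_iff hl h4).2 ⟨h6, h5⟩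
      exact ⟨this.1, Ne.symm h4, this.2⟩
  rw [h3]
  unfold T
  rw [sub_mul, Finset.sum_mul, Finset.sum_mul]
  ring

/-- Number of standard tableaux, recursion on the size. -/
noncomputable def fN : ℕ → (ℕ →₀ ℕ) → ℕ
  | 0, _ => 1
  | n + 1, l => ∑ i ∈ R l, fN n (l - e i)

/-- Number of standard Young tableaux of shape `l`. -/
noncomputable def f (l : ℕ →₀ ℕ) : ℕ := fN (sz l) l

lemma f_zero : f 0 = 1 := by
  simp [f, sz, fN]

lemma f_rec {l : ℕ →₀ ℕ} (hl : Prt l) (h : sz l ≠ 0) : f l = ∑ i ∈ R l, f (l - e i) := by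
  obtain ⟨n, hn⟩ := Nat.exists_eq_succ_of_ne_zero h
  unfold f
  rw [hn]
  show ∑ i ∈ R l, fN n (l - e i) = _
  apply Finset.sum_congr rfl
  intro i hi
  have := sz_down hl hi
  rw [show sz (l - e i) = n by omega]

lemma prt_eq_zero {l : ℕ →₀ ℕ} (h : sz l = 0) : l = 0 := by
  ext i
  have := le_sz l i
  simp
  omega

lemma A_zero : A 0 = {0} := by
  classical
  ext i
  rw [mem_A (fun i => le_rfl)]
  simp

lemma R_zero : R 0 = ∅ := by
  classical
  ext i
  rw [mem_R (fun i => le_rfl)]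
  simp

lemma prt_e0 : Prt (e 0) := by
  intro i
  rw [e_apply, e_apply]
  simp

lemma f_e0 : f (e 0) = 1 := by
  rw [f_rec prt_e0 (by rw [sz_e]; omega)]
  have : R (e 0) = {0} := by
    classical
    ext i
    rw [mem_R prt_e0, e_apply, e_apply]
    simp
    constructor
    · intro h
      by_contra hne
      simp [Ne.symm hne] at h
    · intro h; simp [h]
  rw [this, Finset.sum_singleton]
  have h2 : e 0 - e 0 = 0 := by simp
  rw [h2, f_zero]

/-- Upper branching rule. -/
lemma up_sum (n : ℕ) : ∀ l : ℕ →₀ ℕ, Prt l → sz l = n → ∑ i ∈ A l, (f (l + e i) : ℝ) = (n + 1) * f l := by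
  induction n with
  | zero =>
    intro l _ h
    rw [prt_eq_zero h, A_zero, Finset.sum_singleton, zero_add, f_e0, f_zero]
    simp
  | succ n ih =>
    intro l hl h
    have h1 : ∀ i ∈ A l, (f (l + e i) : ℝ) = 1 ^ (c l i) * ∑ j ∈ R (l + e i), (f (l + e i - e j) : ℝ) := by
      intro i hi
      rw [one_zpow, one_mul, f_rec (hl.up hi) (by rw [sz_add_e]; omega)]
      push_cast
      rfl
    rw [Finset.sum_congr rfl h1, swap_sum 1 hl (fun l => (f l : ℝ))]
    have hT : T 1 l = 1 := by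
      rw [T_eq 1 hl le_rfl]
      simp
    have h2 : ∀ j ∈ R l, ∑ i ∈ A (l - e j), (1 : ℝ) ^ (c (l - e j) i) * (f (l - e j + e i) : ℝ) =
        (n + 1) * f (l - e j) := by
      intro j hj
      rw [← ih (l - e j) (hl.down hj) (by have := sz_down hl hj; omega)]
      simp
    rw [hT, Finset.sum_congr rfl h2, ← Finset.mul_sum]
    have h3 : ∑ i ∈ R l, (f (l - e i) : ℝ) = f l := by
      rw [f_rec hl (by omega)]; push_cast; rfl
    rw [h3]
    push_cast
    ring

/-- Reindexing pairs. -/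
lemma pair_sum {β : Type*} [AddCommMonoid β] (n : ℕ) (G : (ℕ →₀ ℕ) → ℕ → β) :
    ∑ l ∈ Y n, ∑ i ∈ A l, G l i = ∑ m ∈ Y (n + 1), ∑ i ∈ R m, G (m - e i) i := by
  classical
  rw [Finset.sum_sigma', Finset.sum_sigma']
  refine Finset.sum_bij' (fun p _ => ⟨p.1 + e p.2, p.2⟩) (fun p _ => ⟨p.1 - e p.2, p.2⟩) ?_ ?_ ?_ ?_ ?_
  · rintro ⟨l, i⟩ h
    rw [Finset.mem_sigma] at h ⊢
    obtain ⟨h1, h2⟩ := h
    rw [mem_Y] at h1
    refine ⟨mem_Y.2 ⟨h1.1.up h2, by rw [sz_add_e, h1.2]⟩, R_up h1.1 h2⟩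
  · rintro ⟨m, i⟩ h
    rw [Finset.mem_sigma] at h ⊢
    obtain ⟨h1, h2⟩ := h
    rw [mem_Y] at h1
    refine ⟨mem_Y.2 ⟨h1.1.down h2, ?_⟩, A_down h1.1 h2⟩
    have h3 : sz (m - e i) + 1 = sz m := sz_down h1.1 h2
    have h4 : sz m = n + 1 := h1.2
    show sz (m - e i) = n
    omega
  · rintro ⟨l, i⟩ h
    simp only [add_sub_e]
  · rintro ⟨m, i⟩ h
    rw [Finset.mem_sigma] at h
    obtain ⟨h1, h2⟩ := h
    rw [mem_Y] at h1
    have h3 : 1 ≤ m i := one_le_of_R h1.1 h2
    simp only [sub_add_e h3]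
  · rintro ⟨l, i⟩ h
    simp only [add_sub_e]

lemma Y_zero : Y 0 = {0} := by
  ext l
  rw [mem_Y, Finset.mem_singleton]
  constructor
  · exact fun h => prt_eq_zero h.2
  · rintro rfl
    exact ⟨fun i => le_rfl, by simp [sz]⟩

end Helper29.Yng
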